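import Pool.Agent.H77.AF.Ins

/-! # GP.Prod : products of point data, and nilpotence on products

`Nil D Z M`: the exterior products of `M` zero-cycles of degree zero supported on the set `Z` are torsion.
`nil_prod`: if `Nil (D i) (Z i) (m i)` for all `i`, then `Nil (prodPD D) (∏ Z i) (∑ m i + 1)`.
Every difference of two points of the product is a sum of differences of points which differ in one coordinate only; of `∑ m i + 1` such differences at least `m i` differ in the coordinate `i`, for some `i`. -/

namespace H77.GP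

open H68.BB (Om Place)
open H77.AF

variable {K : Type} [Field K]

/-- the product of the point data `D i` -/
abbrev prodPD {r : ℕ} (D : Fin r → PD K) : PD K where
  X := ∀ i, (D i).X
  Y := ∀ i, (D i).Y
  act σ y i := (D i).act σ (y i)
  sp π y x := ∀ i, (D i).sp π (y i) (x i)
  off π y := ∃ i, (D i).off π (y i)
  cst x i := (D i).cst (x i)
  act_cst σ x := funext fun i => (D i).act_cst σ (x i)
  sp_cst π x i := (D i).sp_cst π (x i)

/-- the exterior products of `M` zero-cycles of degree zero supported on `Z` are torsion -/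
def Nil (D : PD K) (Z : Set D.X) (M : ℕ) : Prop :=
  ∀ z : Fin M → Cyc1 D, (∀ i, ((z i).sum fun _ n => n) = 0) → (∀ i, ∀ P ∈ (z i).support, P ∈ Z) →
    prodM z ∈ tor (RatEq D M)

theorem deg0_closure {D : PD K} {Z : Set D.X} {z : Cyc1 D} (h0 : (z.sum fun _ n => n) = 0)
    (hz : ∀ P ∈ z.support, P ∈ Z) :
    z ∈ AddSubgroup.closure {w : Cyc1 D | ∃ P Q : D.X, P ∈ Z ∧ Q ∈ Z ∧ w = Finsupp.single P 1 - Finsupp.single Q 1} := by
  classical
  rcases z.support.eq_empty_or_nonempty with h | ⟨Q, hQ⟩
  · rw [Finsupp.support_eq_empty] at h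
    rw [h]
    exact AddSubgroup.zero_mem _
  · have h1 : z = ∑ P ∈ z.support, z P • ((Finsupp.single P 1 : Cyc1 D) - Finsupp.single Q 1) := by
      have h2 : ∑ P ∈ z.support, z P • (Finsupp.single Q 1 : Cyc1 D) = 0 := by
        rw [← Finset.sum_smul]
        have h3 : ∑ P ∈ z.support, z P = 0 := h0
        rw [h3, zero_smul]
      simp only [smul_sub]
      rw [Finset.sum_sub_distrib, h2, sub_zero]
      conv_lhs => rw [← Finsupp.sum_single z]
      unfold Finsupp.sum
      refine Finset.sum_congr rfl fun P _ => ?_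
      rw [Finsupp.smul_single, smul_eq_mul, mul_one]
    rw [h1]
    refine AddSubgroup.sum_mem _ fun P hP => AddSubgroup.zsmul_mem _ (AddSubgroup.subset_closure ?_) _
    exact ⟨P, Q, hz P hP, hz Q hQ, rfl⟩

/-- the point data of the factor `i` at the places of `Fin m`, constant points at the other coordinates -/
theorem rat_upd {r : ℕ} {D : Fin r → PD K} (i : Fin r) {m : ℕ} (c : Fin m → ∀ i, (D i).X) {x : Cyc (D i) m}
    (hx : x ∈ RatEq (D i) m) :
    (Finsupp.mapDomain (fun (P : Fin m → (D i).X) (j : Fin m) => (Function.update (c j) i (P j) : (prodPD D).X)) x :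
      Cyc (prodPD D) m) ∈ RatEq (prodPD D) m := by
  let F : (Fin m → (D i).X) → (Fin m → ∀ i, (D i).X) := fun P j => Function.update (c j) i (P j)
  let cc : Fin m → ∀ i, (D i).Y := fun j i => (D i).cst (c j i)
  let G : (Fin m → (D i).Y) → (Fin m → ∀ i, (D i).Y) := fun P j => Function.update (cc j) i (P j)
  let f : Cyc (D i) m →+ Cyc (prodPD D) m := Finsupp.mapDomain.addMonoidHom F
  have hcyc : ∀ s : Multiset (Fin m → (D i).X), f (cyc s) = cyc (D := prodPD D) (s.map F) := by
    intro s
    rw [cyc, cyc, map_multiset_sum, Multiset.map_map, Multiset.map_map]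
    congr 1
    apply Multiset.map_congr rfl
    intro p _
    exact Finsupp.mapDomain_single
  have hfib : ∀ (π : Place K (Om K)) (S : Multiset (Fin m → (D i).Y)) (s : Multiset (Fin m → (D i).X)), Fibre π S s →
      Fibre (D := prodPD D) π (S.map G) (s.map F) := by
    rintro π S s ⟨S1, S2, rfl, h1, h2⟩
    refine ⟨S1.map G, S2.map G, Multiset.map_add _ _ _, ?_, ?_⟩
    · rw [Multiset.rel_map]
      refine h1.mono (fun P _ p _ hPp j => ?_)
      intro l
      change (D l).sp π (Function.update (cc j) i (P j) l) (Function.update (c j) i (p j) l)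
      by_cases hl : l = i
      · subst hl
        rw [Function.update_self, Function.update_self]
        exact hPp j
      · rw [Function.update_of_ne hl, Function.update_of_ne hl]
        exact (D l).sp_cst π (c j l)
    · intro P hP
      obtain ⟨P', hP', rfl⟩ := Multiset.mem_map.1 hP
      obtain ⟨j, hj⟩ := h2 P' hP'
      refine ⟨j, i, ?_⟩
      change (D i).off π (Function.update (cc j) i (P' j) i)
      rw [Function.update_self]
      exact hj
  have hle : RatEq (D i) m ≤ (RatEq (prodPD D) m).comap f := by
    rw [RatEq, AddSubgroup.closure_le]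
    rintro z ⟨S, π, π', s, s', hG, h1, h2, rfl⟩
    change f (cyc s - cyc s') ∈ RatEq (prodPD D) m
    rw [map_sub, hcyc, hcyc]
    apply AddSubgroup.subset_closure
    refine ⟨S.map G, π, π', s.map F, s'.map F, ?_, hfib π S s h1, hfib π' S s' h2, rfl⟩
    intro σ
    have h3 := congrArg (Multiset.map G) (hG σ)
    rw [Multiset.map_map] at h3 ⊢
    refine Eq.trans ?_ h3
    apply Multiset.map_congr rfl
    intro P _
    funext j l
    change (D l).act σ (Function.update (cc j) i (P j) l) =
      Function.update (cc j) i ((D i).act σ (P j)) l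
    by_cases hl : l = i
    · subst hl
      rw [Function.update_self, Function.update_self]
    · rw [Function.update_of_ne hl, Function.update_of_ne hl]
      exact (D l).act_cst σ (c j l)
  exact hle hx

theorem map_prodM {D E : PD K} {m : ℕ} (g : Fin m → D.X → E.X) (u : Fin m → Cyc1 D) :
    (Finsupp.mapDomain (fun (P : Fin m → D.X) (j : Fin m) => g j (P j)) (prodM u) : Cyc E m) =
      prodM (fun j => (Finsupp.mapDomain (g j) (u j) : Cyc1 E)) := by
  obtain ⟨mulD, hD1, hD2⟩ := exists_mul D m
  obtain ⟨mulE, hE1, hE2⟩ := exists_mul E m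
  let f : Cyc D m →+ Cyc E m := Finsupp.mapDomain.addMonoidHom (fun (P : Fin m → D.X) (j : Fin m) => g j (P j))
  let g' : Fin m → (Cyc1 D →+ Cyc1 E) := fun j => Finsupp.mapDomain.addMonoidHom (g j)
  have hext : f.toIntLinearMap.compMultilinearMap mulD = mulE.compLinearMap (fun j => (g' j).toIntLinearMap) := by
    refine Module.Basis.ext_multilinear (fun _ => Finsupp.basisSingleOne) ?_
    intro v
    rw [LinearMap.compMultilinearMap_apply, MultilinearMap.compLinearMap_apply]
    have h1 : mulD (fun i => Finsupp.basisSingleOne (R := ℤ) (v i)) = Finsupp.single v 1 := by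
      have h2 : (fun i => (Finsupp.basisSingleOne (R := ℤ) (v i) : Cyc1 D)) = fun i => Finsupp.single (v i) 1 := by
        funext i
        rw [Finsupp.coe_basisSingleOne]
      rw [h2]
      exact hD2 v
    rw [h1]
    have h3 : f.toIntLinearMap (Finsupp.single v 1) = Finsupp.single (fun j => g j (v j)) 1 := by
      rw [AddMonoidHom.coe_toIntLinearMap]
      exact Finsupp.mapDomain_single
    rw [h3, ← hE2]
    congr 1
    funext i
    rw [Finsupp.coe_basisSingleOne, AddMonoidHom.coe_toIntLinearMap]
    exact Finsupp.mapDomain_single.symm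
  have h4 := congrArg (fun M => M u) hext
  simp only [LinearMap.compMultilinearMap_apply, MultilinearMap.compLinearMap_apply,
    AddMonoidHom.coe_toIntLinearMap, hD1, hE1] at h4
  exact h4

section fill
variable {D : PD K} {m M : ℕ}

theorem fill_update {X : Type} {ι : Fin m → Fin M} (hι : Function.Injective ι) (q : Fin M → X) (p : Fin m → X)
    [DecidableEq (Fin m)] (j : Fin m) (x : X) :
    fill ι q (Function.update p j x) = Function.update (fill ι q p) (ι j) x := by
  funext l
  by_cases hl : ∃ j', ι j' = l
  · obtain ⟨j', rfl⟩ := hl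
    rw [fill_at hι]
    by_cases hj : j' = j
    · subst hj
      rw [Function.update_self, Function.update_self]
    · rw [Function.update_of_ne hj, Function.update_of_ne (fun h => hj (hι h)), fill_at hι]
  · have hl' : ∀ j, ι j ≠ l := fun j hj => hl ⟨j, hj⟩
    rw [fill_off _ _ hl', Function.update_of_ne (fun h => hl' j h.symm), fill_off _ _ hl']

theorem fill_self {X : Type} {ι : Fin m → Fin M} (hι : Function.Injective ι) (q : Fin M → X) :
    fill ι q (fun j => q (ι j)) = q := by
  funext l
  by_cases hl : ∃ j', ι j' = l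
  · obtain ⟨j', rfl⟩ := hl
    rw [fill_at hι]
  · exact fill_off _ _ (fun j hj => hl ⟨j, hj⟩)

/-- a product is torsion if the product of some of its factors is -/
theorem kill_many {z : Fin M → Cyc1 D} {ι : Fin m → Fin M} (hι : Function.Injective ι)
    (h : prodM (fun j => z (ι j)) ∈ tor (RatEq D m)) : prodM z ∈ tor (RatEq D M) := by
  classical
  obtain ⟨mulm, h1, h2⟩ := exists_mul D m
  obtain ⟨mul, h3, h4⟩ := exists_mul D M
  let Ψ : Cyc D m →+ Cyc D M := Finsupp.liftAddHom fun P =>
    zmultiplesHom _ (mul (fill ι z (fun j => Finsupp.single (P j) 1)))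
  have hΨ : ∀ (P : Fin m → D.X) (n : ℤ), Ψ (Finsupp.single P n) = n • mul (fill ι z (fun j => Finsupp.single (P j) 1)) := by
    intro P n
    change Finsupp.liftAddHom _ (Finsupp.single P n) = _
    rw [Finsupp.liftAddHom_apply_single, zmultiplesHom_apply]
  have hA : ∀ x : Cyc D m, x ∈ tor (RatEq D m) → Ψ x ∈ tor (RatEq D M) := by
    intro x hx
    have h5 : x = ∑ P ∈ x.support, x P • (Finsupp.single P 1 : Cyc D m) := by
      conv_lhs => rw [← Finsupp.sum_single x]
      unfold Finsupp.sum
      refine Finset.sum_congr rfl fun P _ => ?_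
      rw [Finsupp.smul_single, smul_eq_mul, mul_one]
    have h6 := insk h4 hι x.support (fun P => x P) (fun P => P) (by rw [← h5]; exact hx) z
    rw [h5, map_sum]
    refine Eq.mp (congrArg (fun t => t ∈ tor (RatEq D M)) ?_) h6
    refine Finset.sum_congr rfl fun P _ => ?_
    rw [map_zsmul, hΨ, one_smul]
  let N : MultilinearMap ℤ (fun _ : Fin m => Cyc1 D) (Cyc D M) :=
    { toFun := fun y => mul (fill ι z y)
      map_update_add' := by
        intro _ y i x x'
        rw [fill_update hι, fill_update hι, fill_update hι, MultilinearMap.map_update_add]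
      map_update_smul' := by
        intro _ y i c x
        rw [fill_update hι, fill_update hι, MultilinearMap.map_update_smul] }
  have hB : Ψ.toIntLinearMap.compMultilinearMap mulm = N := by
    refine Module.Basis.ext_multilinear (fun _ => Finsupp.basisSingleOne) ?_
    intro v
    rw [LinearMap.compMultilinearMap_apply]
    have e2 : (fun i => (Finsupp.basisSingleOne (R := ℤ) (v i) : Cyc1 D)) = fun i => Finsupp.single (v i) 1 := by
      funext i
      rw [Finsupp.coe_basisSingleOne]
    rw [e2, h2, AddMonoidHom.coe_toIntLinearMap, hΨ, one_smul]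
    rfl
  have h7 := congrArg (fun M => M (fun j => z (ι j))) hB
  simp only [LinearMap.compMultilinearMap_apply, AddMonoidHom.coe_toIntLinearMap, h1] at h7
  have h8 : N (fun j => z (ι j)) = mul z := by
    change mul (fill ι z (fun j => z (ι j))) = mul z
    rw [fill_self hι]
  rw [← h3, ← h8, ← h7]
  exact hA _ h

end fill

theorem Nil.mono {D : PD K} {Z : Set D.X} {m M : ℕ} (h : Nil D Z m) (hmM : m ≤ M) : Nil D Z M := by
  intro z h0 hz
  exact kill_many (ι := Fin.castLE hmM) (Fin.castLE_injective hmM) (h _ (fun i => h0 _) (fun i => hz _))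

/-- a difference of two points of the product is a sum of differences of points which differ in one coordinate only -/
theorem tele {r : ℕ} {D : Fin r → PD K} {Z : ∀ i, Set (D i).X} {P Q : (prodPD D).X} (hP : ∀ i, P i ∈ Z i) (hQ : ∀ i, Q i ∈ Z i) :
    (Finsupp.single P 1 - Finsupp.single Q 1 : Cyc1 (prodPD D)) ∈ AddSubgroup.closure {w : Cyc1 (prodPD D) |
      ∃ (i : Fin r) (A B : (prodPD D).X), (∀ j, A j ∈ Z j) ∧ (∀ j, B j ∈ Z j) ∧ (∀ j, j ≠ i → A j = B j) ∧
        w = Finsupp.single A 1 - Finsupp.single B 1} := by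
  classical
  have key : ∀ s : Finset (Fin r), (Finsupp.single P 1 - Finsupp.single (s.piecewise Q P : ∀ i, (D i).X) 1 :
      Cyc1 (prodPD D)) ∈ AddSubgroup.closure {w : Cyc1 (prodPD D) |
      ∃ (i : Fin r) (A B : (prodPD D).X), (∀ j, A j ∈ Z j) ∧ (∀ j, B j ∈ Z j) ∧ (∀ j, j ≠ i → A j = B j) ∧
        w = Finsupp.single A 1 - Finsupp.single B 1} := by
    intro s
    induction s using Finset.induction_on with
    | empty =>
      rw [Finset.piecewise_empty, sub_self]
      exact AddSubgroup.zero_mem _
    | insert a s ha ih =>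
      have h1 : (Finsupp.single (s.piecewise Q P : ∀ i, (D i).X) 1 -
          Finsupp.single ((insert a s).piecewise Q P : ∀ i, (D i).X) 1 : Cyc1 (prodPD D)) ∈
          AddSubgroup.closure {w : Cyc1 (prodPD D) |
            ∃ (i : Fin r) (A B : (prodPD D).X), (∀ j, A j ∈ Z j) ∧ (∀ j, B j ∈ Z j) ∧ (∀ j, j ≠ i → A j = B j) ∧
            w = Finsupp.single A 1 - Finsupp.single B 1} := by
        refine AddSubgroup.subset_closure ⟨a, _, _, ?_, ?_, ?_, rfl⟩
        · intro j
          by_cases hj : j ∈ s
          · rw [Finset.piecewise_eq_of_mem _ _ _ hj]; exact hQ j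
          · rw [Finset.piecewise_eq_of_notMem _ _ _ hj]; exact hP j
        · intro j
          by_cases hj : j ∈ insert a s
          · rw [Finset.piecewise_eq_of_mem _ _ _ hj]; exact hQ j
          · rw [Finset.piecewise_eq_of_notMem _ _ _ hj]; exact hP j
        · intro j hj
          rw [Finset.piecewise_insert, Function.update_of_ne hj]
      have h2 := AddSubgroup.add_mem _ ih h1
      rwa [sub_add_sub_cancel] at h2
  have h := key Finset.univ
  rwa [Finset.piecewise_univ] at h

theorem nil_prod {r : ℕ} {D : Fin r → PD K} {Z : ∀ i, Set (D i).X} {m : Fin r → ℕ}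
    (h : ∀ i, Nil (D i) (Z i) (m i)) : Nil (prodPD D) {x | ∀ i, x i ∈ Z i} (∑ i, m i + 1) := by
  classical
  intro z h0 hz
  obtain ⟨mul, hmul, hpr⟩ := exists_mul (prodPD D) (∑ i, m i + 1)
  rw [← hmul]
  refine multi_mem (tor (RatEq (prodPD D) (∑ i, m i + 1))) mul (fun _ => {w : Cyc1 (prodPD D) |
      ∃ (i : Fin r) (A B : (prodPD D).X), (∀ j, A j ∈ Z j) ∧ (∀ j, B j ∈ Z j) ∧ (∀ j, j ≠ i → A j = B j) ∧
        w = Finsupp.single A 1 - Finsupp.single B 1}) ?_ z ?_
  · intro y hy
    choose τ A B hA hB hAB hw using hy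
    obtain ⟨i, hi⟩ : ∃ i, m i ≤ (Finset.univ.filter fun l => τ l = i).card := by
      by_contra hcon
      push Not at hcon
      have h1 : ∑ i, (Finset.univ.filter fun l => τ l = i).card = ∑ i, m i + 1 := by
        have h2 := Finset.card_eq_sum_card_fiberwise (s := (Finset.univ : Finset (Fin (∑ i, m i + 1))))
          (t := (Finset.univ : Finset (Fin r))) (f := τ) (fun _ _ => Finset.mem_coe.2 (Finset.mem_univ _))
        rw [Finset.card_univ, Fintype.card_fin] at h2
        exact h2.symm
      have h3 : ∑ i, (Finset.univ.filter fun l => τ l = i).card ≤ ∑ i, m i :=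
        Finset.sum_le_sum fun i _ => (hcon i).le
      omega
    obtain ⟨s, hs1, hs2⟩ := Finset.exists_subset_card_eq hi
    let ι : Fin (m i) → Fin (∑ i, m i + 1) := s.orderEmbOfFin hs2
    have hι : Function.Injective ι := (s.orderEmbOfFin hs2).injective
    have hτ : ∀ j, τ (ι j) = i := fun j => (Finset.mem_filter.1 (hs1 (Finset.orderEmbOfFin_mem s hs2 j))).2
    rw [hmul]
    refine kill_many hι ?_
    let u : Fin (m i) → Cyc1 (D i) := fun j => Finsupp.single (A (ι j) i) 1 - Finsupp.single (B (ι j) i) 1
    have h4 : prodM u ∈ tor (RatEq (D i) (m i)) := by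
      refine h i u ?_ ?_
      · intro j
        change (Finsupp.single (A (ι j) i) (1 : ℤ) - Finsupp.single (B (ι j) i) 1).sum (fun _ n => n) = 0
        rw [Finsupp.sum_sub_index (fun _ _ _ => rfl), Finsupp.sum_single_index rfl, Finsupp.sum_single_index rfl, sub_self]
      · intro j P hP
        have h5 := Finsupp.support_sub hP
        rcases Finset.mem_union.1 h5 with h6 | h6
        · rw [Finset.mem_singleton.1 (Finsupp.support_single_subset h6)]
          exact hA _ i
        · rw [Finset.mem_singleton.1 (Finsupp.support_single_subset h6)]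
          exact hB _ i
    obtain ⟨N, hN, h5⟩ := h4
    refine tor_sat hN (le_tor _ ?_)
    have h6 := rat_upd i (fun j => A (ι j)) h5
    have h7 : ∀ x : Cyc (D i) (m i), (Finsupp.mapDomain (fun (P : Fin (m i) → (D i).X) (j : Fin (m i)) =>
        (Function.update (A (ι j)) i (P j) : (prodPD D).X)) x : Cyc (prodPD D) (m i)) =
        Finsupp.mapDomain.addMonoidHom (fun (P : Fin (m i) → (D i).X) (j : Fin (m i)) =>
        (Function.update (A (ι j)) i (P j) : (prodPD D).X)) x := fun _ => rfl
    rw [h7, map_nsmul, ← h7,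
      map_prodM (D := D i) (E := prodPD D) (fun (j : Fin (m i)) (p : (D i).X) => (Function.update (A (ι j)) i p : (prodPD D).X)) u] at h6
    refine Eq.mp (congrArg (fun t => N • t ∈ RatEq (prodPD D) (m i)) ?_) h6
    congr 1
    funext j
    have h8 : (Finsupp.mapDomain (fun p : (D i).X => (Function.update (A (ι j)) i p : (prodPD D).X)) (u j) : Cyc1 (prodPD D)) =
        Finsupp.mapDomain.addMonoidHom (fun p : (D i).X => (Function.update (A (ι j)) i p : (prodPD D).X)) (u j) := rfl
    rw [h8, map_sub, hw (ι j)]
    have h9 : Function.update (A (ι j)) i (A (ι j) i) = A (ι j) := Function.update_eq_self _ _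
    have h10 : Function.update (A (ι j)) i (B (ι j) i) = B (ι j) := by
      funext l
      by_cases hl : l = i
      · subst hl
        rw [Function.update_self]
      · rw [Function.update_of_ne hl]
        exact hAB (ι j) l (by rw [hτ j]; exact hl)
    rw [Finsupp.mapDomain.addMonoidHom_apply, Finsupp.mapDomain.addMonoidHom_apply, Finsupp.mapDomain_single,
      Finsupp.mapDomain_single, h9, h10]
  · intro l
    refine (AddSubgroup.closure_le _).2 ?_ (deg0_closure (h0 l) (hz l))
    rintro w ⟨P, Q, hP, hQ, rfl⟩
    exact tele hP hQ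

end H77.GP
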