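import Pool.Agent.H77.GP.Alt0

/-! # GP.AltM : more points

`alt_mono`: if the alternating sums of `a` points are torsion then the alternating sums of `N ≥ a` points are. -/

namespace H77.GP

open H68.BB (Om Place)
open H77.AF Equiv Equiv.Perm

variable {K : Type} [Field K]

/-- the alternating sum over the permutations of `a` of the `N` coordinates -/
theorem alt_sub {D : PD K} {a N : ℕ} (h : AltPt D a) (P : Fin N → D.X) (s : Finset (Fin N)) (hs : s.card = a) :
    ∑ ρ ∈ supp s, (sign ρ : ℤ) • (Finsupp.single (fun l => P (ρ l)) 1 : Cyc D N) ∈ tor (RatEq D N) := by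
  classical
  let e : Fin a ≃o s := s.orderIsoOfFin hs
  let ι : Fin a → Fin N := fun t => (e t).1
  have hι : Function.Injective ι := fun t t' ht => e.injective (Subtype.ext ht)
  let V : Cyc D a →+ Cyc D N := Finsupp.mapDomain.addMonoidHom (fill ι P)
  have h1 := map_tor V (fun x hx => ins hι P hx) (h fun t => P (ι t))
  rw [map_sum] at h1
  refine Eq.mp (congrArg (fun t => t ∈ tor (RatEq D N)) ?_) h1
  have h3 : (Finset.univ : Finset {x // x ∈ s}).map (Function.Embedding.subtype _) = s := by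
    rw [Finset.univ_eq_attach, Finset.attach_map_val]
  have h4 := sum_supp s Finset.univ (fun ρ => (Finsupp.single (fun l => P (ρ l)) 1 : Cyc D N))
  rw [h3, supp_univ] at h4
  rw [h4]
  refine Fintype.sum_equiv (e.toEquiv.permCongr) _ _ fun π => ?_
  rw [Equiv.Perm.sign_permCongr, map_zsmul]
  congr 1
  change Finsupp.mapDomain (fill ι P) (Finsupp.single _ 1) = _
  rw [Finsupp.mapDomain_single]
  congr 1
  funext l
  by_cases hl : ∃ t, ι t = l
  · obtain ⟨t, rfl⟩ := hl
    rw [fill_at hι]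
    have h5 : ofSubtype (e.toEquiv.permCongr π) (ι t) = ι (π t) := by
      rw [ofSubtype_apply_of_mem _ (e t).2]
      change (e.toEquiv.permCongr π (e t)).1 = (e (π t)).1
      rw [Equiv.permCongr_apply]
      change (e (π (e.symm (e t)))).1 = (e (π t)).1
      rw [OrderIso.symm_apply_apply]
    rw [h5]
  · have hl' : ∀ t, ι t ≠ l := fun t ht => hl ⟨t, ht⟩
    rw [fill_off _ _ hl']
    have h5 : ofSubtype (e.toEquiv.permCongr π) l = l := by
      refine ofSubtype_apply_of_not_mem _ fun hls => ?_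
      refine hl' (e.symm ⟨l, hls⟩) ?_
      change (e (e.symm ⟨l, hls⟩)).1 = l
      rw [OrderIso.apply_symm_apply]
    rw [h5]

theorem tor_of_nsmul {A : Type} [AddCommGroup A] {H : AddSubgroup A} {x : A} {n : ℕ} (hn : 0 < n) (h : n • x ∈ tor H) : x ∈ tor H := by
  obtain ⟨N, hN, h1⟩ := h
  exact ⟨N * n, Nat.mul_pos hN hn, by rw [mul_nsmul']; exact h1⟩

theorem alt_mono {D : PD K} {a N : ℕ} (h : AltPt D a) (haN : a ≤ N) : AltPt D N := by
  classical
  intro P
  obtain ⟨s, -, hs⟩ := Finset.exists_subset_card_eq (s := (Finset.univ : Finset (Fin N))) (n := a) (by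
    rw [Finset.card_univ, Fintype.card_fin]; exact haN)
  have h1 : ∑ σ : Perm (Fin N), (sign σ : ℤ) • ∑ ρ ∈ supp s, (sign ρ : ℤ) •
      (Finsupp.single (fun l => P (σ (ρ l))) 1 : Cyc D N) ∈ tor (RatEq D N) :=
    AddSubgroup.sum_mem _ fun σ _ => AddSubgroup.zsmul_mem _ (alt_sub h (fun l => P (σ l)) s hs) _
  have h2 : ∑ σ : Perm (Fin N), (sign σ : ℤ) • ∑ ρ ∈ supp s, (sign ρ : ℤ) •
      (Finsupp.single (fun l => P (σ (ρ l))) 1 : Cyc D N) =
      (supp s).card • ∑ σ : Perm (Fin N), (sign σ : ℤ) • (Finsupp.single (fun l => P (σ l)) 1 : Cyc D N) := by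
    have h3 : ∀ σ : Perm (Fin N), (sign σ : ℤ) • ∑ ρ ∈ supp s, (sign ρ : ℤ) •
        (Finsupp.single (fun l => P (σ (ρ l))) 1 : Cyc D N) =
        ∑ ρ ∈ supp s, (sign (σ * ρ) : ℤ) • (Finsupp.single (fun l => P ((σ * ρ) l)) 1 : Cyc D N) := by
      intro σ
      rw [Finset.smul_sum]
      refine Finset.sum_congr rfl fun ρ _ => ?_
      rw [Perm.sign_mul, Units.val_mul, mul_smul]
      rfl
    rw [Finset.sum_congr rfl fun σ _ => h3 σ, Finset.sum_comm, ← Finset.sum_const]
    refine Finset.sum_congr rfl fun ρ _ => ?_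
    exact Fintype.sum_equiv (Equiv.mulRight ρ) _ _ fun σ => rfl
  rw [h2] at h1
  refine tor_of_nsmul (Finset.card_pos.2 ⟨1, mem_supp.2 fun i _ => rfl⟩) h1

end H77.GP
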