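import Pool.Agent.H77.GP.Prod
import Pool.Agent.H79.GM.Trans

/-! # GP.Tra : nilpotence is transferred by correspondences

`z_i` supported on points `x'` with `R (h x') x'`, `h x' ∈ Z`: `y_i := h_* z_i`, so `∏ y_i` is torsion (`Nil`), hence `∏ g_* y_i` (`push_rel`), and `z_i - g_* y_i` is torsion (`Tr.uniq`), so `∏ z_i` is torsion (`mul_con`). -/

namespace H77.GP

open H68.BB (Om Place)
open H77.AF H79.GM

variable {K : Type} [Field K] {D D' : PD K} {R : D.X → D'.X → Prop} {RY : D.Y → D'.Y → Prop}

theorem map_sub' {X : Type} {p : X → Prop} {z : X →₀ ℤ} (hz : ∀ P ∈ z.support, p P) :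
    Finsupp.mapDomain Subtype.val (z.subtypeDomain p) = z := by
  classical
  ext P
  by_cases hP : p P
  · have h1 := Finsupp.mapDomain_apply (f := (Subtype.val : Subtype p → X)) Subtype.val_injective (z.subtypeDomain p) ⟨P, hP⟩
    rw [Finsupp.subtypeDomain_apply] at h1
    exact h1
  · rw [Finsupp.mapDomain_of_notMem_range]
    · by_contra h
      exact hP (hz P (Finsupp.mem_support_iff.2 (Ne.symm h)))
    · rintro ⟨⟨Q, hQ⟩, rfl⟩
      exact hP hQ

theorem deg_map {X Y : Type} (f : X → Y) (z : X →₀ ℤ) : ((Finsupp.mapDomain f z).sum fun _ n => n) = z.sum fun _ n => n :=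
  Finsupp.sum_mapDomain_index (fun _ => rfl) (fun _ _ _ => rfl)

/-- `Nil` is transferred by the correspondence `R` -/
theorem nil_tr (h : Tr D D' R RY) (htot : ∀ x, ∃ x', R x x') {Z : Set D.X} {M : ℕ} (hZ : Nil D Z M) :
    Nil D' {x' | ∃ x ∈ Z, R x x'} M := by
  classical
  intro z h0 hz
  obtain ⟨g, hg⟩ : ∃ g : D.X → D'.X, ∀ x, R x (g x) := ⟨fun x => (htot x).choose, fun x => (htot x).choose_spec⟩
  let p : D'.X → Prop := fun x' => ∃ x ∈ Z, R x x'
  let hh : Subtype p → D.X := fun x' => x'.2.choose
  have hh1 : ∀ x', hh x' ∈ Z := fun x' => x'.2.choose_spec.1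
  have hh2 : ∀ x', R (hh x') x'.1 := fun x' => x'.2.choose_spec.2
  let z' : Fin M → (Subtype p →₀ ℤ) := fun i => (z i).subtypeDomain p
  have hz' : ∀ i, Finsupp.mapDomain Subtype.val (z' i) = z i := fun i => map_sub' (hz i)
  let y : Fin M → Cyc1 D := fun i => Finsupp.mapDomain hh (z' i)
  have hy : prodM y ∈ tor (RatEq D M) := by
    refine hZ y ?_ ?_
    · intro i
      rw [deg_map, ← deg_map Subtype.val, hz' i]
      exact h0 i
    · intro i P hP
      have h1 := Finsupp.mapDomain_support hP
      rw [Finset.mem_image] at h1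
      obtain ⟨x', -, rfl⟩ := h1
      exact hh1 x'
  have hy2 := push_rel h hg hy
  rw [map_prodM (E := D') (fun _ => g) y] at hy2
  obtain ⟨mul, hmul, hpr⟩ := exists_mul D' M
  rw [← hmul] at hy2 ⊢
  have h3 : mul z - mul (fun j => Finsupp.mapDomain g (y j)) ∈ tor (RatEq D' M) := by
    refine H77.PB.mul_con hpr z (fun j => Finsupp.mapDomain g (y j)) ?_
    intro i
    let F : (Subtype p →₀ ℤ) →+ Cyc D' 1 := up.comp
      ((Finsupp.mapDomain.addMonoidHom Subtype.val : (Subtype p →₀ ℤ) →+ Cyc1 D') -
        (Finsupp.mapDomain.addMonoidHom (fun x' => g (hh x')) : (Subtype p →₀ ℤ) →+ Cyc1 D'))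
    have h4 : ∀ w, F w ∈ tor (RatEq D' 1) := by
      intro w
      induction w using Finsupp.induction_linear with
      | zero => rw [map_zero]; exact AddSubgroup.zero_mem _
      | add u v hu hv => rw [map_add]; exact AddSubgroup.add_mem _ hu hv
      | single x n =>
        have h5 : (Finsupp.single x n : Subtype p →₀ ℤ) = n • Finsupp.single x 1 := by
          rw [Finsupp.smul_single, smul_eq_mul, mul_one]
        rw [h5, map_zsmul]
        refine AddSubgroup.zsmul_mem _ ?_ n
        have h6 : F (Finsupp.single x 1) = Finsupp.single (fun _ => x.1) 1 - Finsupp.single (fun _ => g (hh x)) 1 := by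
          change up (Finsupp.mapDomain Subtype.val (Finsupp.single x 1) - Finsupp.mapDomain (fun x' => g (hh x')) (Finsupp.single x 1)) = _
          rw [Finsupp.mapDomain_single, Finsupp.mapDomain_single, map_sub]
          unfold up
          rw [Finsupp.mapDomain.addMonoidHom_apply, Finsupp.mapDomain.addMonoidHom_apply, Finsupp.mapDomain_single,
            Finsupp.mapDomain_single]
        rw [h6]
        exact h.uniq (hh x) _ _ (hh2 x) (hg (hh x))
    have h7 : up (z i - Finsupp.mapDomain g (y i)) = F (z' i) := by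
      change _ = up (Finsupp.mapDomain Subtype.val (z' i) - Finsupp.mapDomain (fun x' => g (hh x')) (z' i))
      rw [hz' i]
      congr 2
      change Finsupp.mapDomain g (Finsupp.mapDomain hh (z' i)) = _
      rw [← Finsupp.mapDomain_comp]
      rfl
    rw [h7]
    exact h4 _
  have h8 := AddSubgroup.add_mem _ h3 hy2
  rwa [sub_add_cancel] at h8

end H77.GP
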