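import Pool.Agent.H77.GP.AltP
import Pool.Agent.H77.GP.Tra

/-! # GP.Alt0 : alternating products of zero-cycles of degree zero and of points, transfer

`Alt0 D k`: the alternating products of `k` zero-cycles of degree zero are torsion; `pt_of_alt0 : Alt0 D k → AltPt D (k + 1)`, `alt0_of_pt : AltPt D (k + 1) → Alt0 D k`, `alt_tr`: transfer along a correspondence. -/

namespace H77.GP

open H68.BB (Om Place)
open H77.AF H79.GM Equiv Equiv.Perm

variable {K : Type} [Field K]

/-- the alternating products of `k` zero-cycles of degree zero are torsion -/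
def Alt0 (D : PD K) (k : ℕ) : Prop :=
  ∀ z : Fin k → Cyc1 D, (∀ i, ((z i).sum fun _ n => n) = 0) →
    ∑ σ : Perm (Fin k), (sign σ : ℤ) • prodM (fun i => z (σ i)) ∈ tor (RatEq D k)

/-- the alternating sum as an alternating map -/
theorem alt_apply {D : PD K} {k : ℕ} (mul : MultilinearMap ℤ (fun _ : Fin k => Cyc1 D) (Cyc D k)) (w : Fin k → Cyc1 D) :
    MultilinearMap.alternatization mul w = ∑ σ : Perm (Fin k), (sign σ : ℤ) • mul (fun i => w (σ i)) := by
  rw [MultilinearMap.alternatization_apply]
  refine Finset.sum_congr rfl fun σ _ => ?_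
  rw [MultilinearMap.domDomCongr_apply, Units.smul_def]

/-- inserting products -/
theorem fill_prod {D : PD K} {k m : ℕ} {ι : Fin k → Fin m} (hι : Function.Injective ι) (o : D.X)
    {mul : MultilinearMap ℤ (fun _ : Fin m => Cyc1 D) (Cyc D m)} (hm : IsPr mul) (y : Fin k → Cyc1 D) :
    (Finsupp.mapDomain (fill ι (fun _ => o)) (prodM y) : Cyc D m) = mul (fill ι (fun _ => Finsupp.single o 1) y) := by
  classical
  obtain ⟨mulk, h1, h2⟩ := exists_mul D k
  let f : Cyc D k →+ Cyc D m := Finsupp.mapDomain.addMonoidHom (fill ι (fun _ => o))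
  let N : MultilinearMap ℤ (fun _ : Fin k => Cyc1 D) (Cyc D m) :=
    { toFun := fun y => mul (fill ι (fun _ => Finsupp.single o 1) y)
      map_update_add' := by
        intro _ y i x x'
        rw [fill_update hι, fill_update hι, fill_update hι, MultilinearMap.map_update_add]
      map_update_smul' := by
        intro _ y i c x
        rw [fill_update hι, fill_update hι, MultilinearMap.map_update_smul] }
  have hB : f.toIntLinearMap.compMultilinearMap mulk = N := by
    refine Module.Basis.ext_multilinear (fun _ => Finsupp.basisSingleOne) ?_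
    intro v
    rw [LinearMap.compMultilinearMap_apply]
    have e2 : (fun i => (Finsupp.basisSingleOne (R := ℤ) (v i) : Cyc1 D)) = fun i => Finsupp.single (v i) 1 := by
      funext i
      rw [Finsupp.coe_basisSingleOne]
    rw [e2, h2, AddMonoidHom.coe_toIntLinearMap]
    change Finsupp.mapDomain (fill ι (fun _ => o)) (Finsupp.single v 1) = mul (fill ι (fun _ => Finsupp.single o 1) fun i => Finsupp.single (v i) 1)
    rw [Finsupp.mapDomain_single, ← hm]
    congr 1
    exact fill_map ι (fun _ => o) v (fun x => (Finsupp.single x 1 : Cyc1 D))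
  have h7 := congrArg (fun M => M y) hB
  simp only [LinearMap.compMultilinearMap_apply, AddMonoidHom.coe_toIntLinearMap, h1] at h7
  exact h7

/-- alternating sums of points are torsion if the alternating products of zero-cycles of degree zero are -/
theorem pt_of_alt0 {D : PD K} {k : ℕ} (h : Alt0 D k) : AltPt D (k + 1) := by
  classical
  intro P
  obtain ⟨mul, hmul, hpr⟩ := exists_mul D (k + 1)
  let A := MultilinearMap.alternatization mul
  let v : Fin (k + 1) → Cyc1 D := fun j => Finsupp.single (P j) 1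
  have h1 : ∑ σ : Perm (Fin (k + 1)), (sign σ : ℤ) • (Finsupp.single (fun j => P (σ j)) 1 : Cyc D (k + 1)) = A v := by
    rw [alt_apply]
    refine Finset.sum_congr rfl fun σ _ => ?_
    rw [← hpr]
  let o : D.X := P 0
  have h2 : ∀ s : Finset (Fin (k + 1)), 0 ∉ s → A (s.piecewise (fun m => v m - v 0) v) = A v := by
    intro s
    induction s using Finset.induction_on with
    | empty =>
      intro _
      rw [Finset.piecewise_empty]
    | insert m s hm ih =>
      intro h0
      rw [Finset.mem_insert, not_or] at h0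
      have h3 := ih h0.2
      rw [Finset.piecewise_insert]
      have h4 : (s.piecewise (fun m => v m - v 0) v) m = v m := Finset.piecewise_eq_of_notMem _ _ _ hm
      have h5 : Function.update (s.piecewise (fun m => v m - v 0) v) m (v m) = s.piecewise (fun m => v m - v 0) v := by
        conv_lhs => rw [← h4]
        rw [Function.update_eq_self]
      have h6 : A (Function.update (s.piecewise (fun m => v m - v 0) v) m (v 0)) = 0 := by
        refine A.map_eq_zero_of_eq _ ?_ h0.1
        rw [Function.update_self, Function.update_of_ne h0.1, Finset.piecewise_eq_of_notMem _ _ _ h0.2]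
      rw [AlternatingMap.map_update_sub, h5, h6, sub_zero, h3]
  let z : Fin k → Cyc1 D := fun t => v t.succ - v 0
  let w : Fin (k + 1) → Cyc1 D := Fin.cons (v 0) z
  have h3 : A v = A w := by
    rw [← h2 (Finset.univ.erase 0) (Finset.notMem_erase _ _)]
    congr 1
    funext m
    refine Fin.cases ?_ (fun t => ?_) m
    · rw [Finset.piecewise_eq_of_notMem _ _ _ (Finset.notMem_erase _ _)]
      rfl
    · rw [Finset.piecewise_eq_of_mem _ _ _ (Finset.mem_erase.2 ⟨Fin.succ_ne_zero t, Finset.mem_univ _⟩)]
      rfl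
  have hz : ∀ i, ((z i).sum fun _ n => n) = 0 := by
    intro i
    change (Finsupp.single (P i.succ) (1 : ℤ) - Finsupp.single (P 0) 1).sum (fun _ n => n) = 0
    rw [Finsupp.sum_sub_index (fun _ _ _ => rfl), Finsupp.sum_single_index rfl, Finsupp.sum_single_index rfl, sub_self]
  let ι : Fin (k + 1) → Fin k → Fin (k + 1) := fun l t => swap 0 l t.succ
  have hι : ∀ l, Function.Injective (ι l) := fun l t t' ht => Fin.succ_injective _ ((swap 0 l).injective ht)
  have hιl : ∀ l t, ι l t ≠ l := by
    intro l t ht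
    have h4 := congrArg (swap 0 l) ht
    change swap 0 l (swap 0 l t.succ) = swap 0 l l at h4
    rw [swap_apply_self, swap_apply_right] at h4
    exact Fin.succ_ne_zero t h4
  have hw : ∀ (l : Fin (k + 1)) (e : Perm (Fin k)),
      (fun m => w ((decomposeFin.symm (l, e))⁻¹ m)) = fill (ι l) (fun _ => Finsupp.single o 1) (fun t => z (e⁻¹ t)) := by
    intro l e
    funext m
    by_cases hm : ∃ t, ι l t = m
    · obtain ⟨t, rfl⟩ := hm
      rw [fill_at (hι l)]
      have h5 : (decomposeFin.symm (l, e))⁻¹ (ι l t) = (e⁻¹ t).succ := by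
        rw [Perm.inv_eq_iff_eq, decomposeFin_symm_apply_succ]
        change swap 0 l t.succ = swap 0 l (e (e.symm t)).succ
        rw [Equiv.apply_symm_apply]
      rw [h5]
      rfl
    · have hm' : ∀ t, ι l t ≠ m := fun t ht => hm ⟨t, ht⟩
      rw [fill_off _ _ hm']
      have h5 : m = l := by
        by_contra hn
        have h6 : swap 0 l m ≠ 0 := by
          intro h7
          have h8 := congrArg (swap 0 l) h7
          rw [swap_apply_self, swap_apply_left] at h8
          exact hn h8
        refine hm' ((swap 0 l m).pred h6) ?_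
        change swap 0 l (Fin.succ _) = m
        rw [Fin.succ_pred, swap_apply_self]
      have h6 : (decomposeFin.symm (l, e))⁻¹ m = 0 := by
        rw [Perm.inv_eq_iff_eq, decomposeFin_symm_apply_zero, h5]
      rw [h6]
      rfl
  rw [h1, h3, alt_apply]
  have h4 : ∑ σ : Perm (Fin (k + 1)), (sign σ : ℤ) • mul (fun i => w (σ i)) =
      ∑ q : Fin (k + 1) × Perm (Fin k), (sign (decomposeFin.symm q) : ℤ) • mul (fun i => w ((decomposeFin.symm q)⁻¹ i)) := by
    refine Fintype.sum_equiv ((Equiv.inv _).trans decomposeFin) _ _ fun σ => ?_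
    rw [Equiv.trans_apply, Equiv.symm_apply_apply, Equiv.inv_apply, sign_inv, inv_inv]
  rw [h4, Fintype.sum_prod_type]
  refine AddSubgroup.sum_mem _ fun l _ => ?_
  have h5 := map_tor (Finsupp.mapDomain.addMonoidHom (fill (ι l) (fun _ => o)) : Cyc D k →+ Cyc D (k + 1))
    (fun x hx => ins (hι l) (fun _ => o) hx) (h z hz)
  rw [map_sum] at h5
  have h6 : ∑ e : Perm (Fin k), (sign (decomposeFin.symm (l, e)) : ℤ) • mul (fun i => w ((decomposeFin.symm (l, e))⁻¹ i)) =
      ((ite (l = 0) 1 (-1) : ℤˣ) : ℤ) • ∑ e : Perm (Fin k), (sign e : ℤ) •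
        (Finsupp.mapDomain (fill (ι l) (fun _ => o)) (prodM (fun t => z (e t))) : Cyc D (k + 1)) := by
    rw [Finset.smul_sum]
    refine Fintype.sum_equiv (Equiv.inv _) _ _ fun e => ?_
    rw [decomposeFin.symm_sign, Units.val_mul, mul_smul, hw, ← fill_prod (hι l) o hpr, Equiv.inv_apply, sign_inv]
  rw [h6]
  refine AddSubgroup.zsmul_mem _ ?_ _
  refine Eq.mp (congrArg (fun t => t ∈ tor (RatEq D (k + 1))) ?_) h5
  refine Finset.sum_congr rfl fun e _ => ?_
  rw [map_zsmul]
  rfl

/-- forgetting the first coordinate -/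
theorem tail_rat {D : PD K} (hoff : ∀ π y, ¬ D.off π y) {k : ℕ} {x : Cyc D (k + 1)} (hx : x ∈ RatEq D (k + 1)) :
    (Finsupp.mapDomain (fun (P : Fin (k + 1) → D.X) (j : Fin k) => P j.succ) x : Cyc D k) ∈ RatEq D k := by
  let F : (Fin (k + 1) → D.X) → (Fin k → D.X) := fun P j => P j.succ
  let G : (Fin (k + 1) → D.Y) → (Fin k → D.Y) := fun P j => P j.succ
  let f : Cyc D (k + 1) →+ Cyc D k := Finsupp.mapDomain.addMonoidHom F
  have hcyc : ∀ s : Multiset (Fin (k + 1) → D.X), f (cyc s) = cyc (s.map F) := by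
    intro s
    rw [cyc, cyc, map_multiset_sum, Multiset.map_map, Multiset.map_map]
    congr 1
    apply Multiset.map_congr rfl
    intro p _
    exact Finsupp.mapDomain_single
  have hfib : ∀ (π : Place K (Om K)) (S : Multiset (Fin (k + 1) → D.Y)) (s : Multiset (Fin (k + 1) → D.X)), Fibre π S s →
      Fibre π (S.map G) (s.map F) := by
    rintro π S s ⟨S1, S2, rfl, h1, h2⟩
    refine ⟨S1.map G, S2.map G, Multiset.map_add _ _ _, ?_, ?_⟩
    · rw [Multiset.rel_map]
      exact h1.mono (fun P _ p _ hPp j => hPp j.succ)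
    · intro P hP
      obtain ⟨P', hP', rfl⟩ := Multiset.mem_map.1 hP
      obtain ⟨j, hj⟩ := h2 P' hP'
      exact absurd hj (hoff _ _)
  have hle : RatEq D (k + 1) ≤ (RatEq D k).comap f := by
    rw [RatEq, AddSubgroup.closure_le]
    rintro z ⟨S, π, π', s, s', hG, h1, h2, rfl⟩
    change f (cyc s - cyc s') ∈ RatEq D k
    rw [map_sub, hcyc, hcyc]
    apply AddSubgroup.subset_closure
    refine ⟨S.map G, π, π', s.map F, s'.map F, ?_, hfib π S s h1, hfib π' S s' h2, rfl⟩
    intro σ
    have h3 := congrArg (Multiset.map G) (hG σ)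
    rw [Multiset.map_map] at h3 ⊢
    refine Eq.trans ?_ h3
    rfl
  exact hle hx

/-- the degree -/
noncomputable def dg {D : PD K} : Cyc1 D →+ ℤ := Finsupp.liftAddHom fun _ => AddMonoidHom.id ℤ

theorem dg_eq {D : PD K} (z : Cyc1 D) : dg z = z.sum fun _ n => n := by
  unfold dg
  rw [Finsupp.liftAddHom_apply]
  rfl

theorem tail_prod {D : PD K} {k : ℕ} {mul : MultilinearMap ℤ (fun _ : Fin (k + 1) => Cyc1 D) (Cyc D (k + 1))} (hm : IsPr mul)
    (w : Fin (k + 1) → Cyc1 D) :
    (Finsupp.mapDomain (fun (P : Fin (k + 1) → D.X) (j : Fin k) => P j.succ) (mul w) : Cyc D k) =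
      dg (w 0) • prodM (fun j => w j.succ) := by
  obtain ⟨mulk, h1, h2⟩ := exists_mul D k
  let f : Cyc D (k + 1) →+ Cyc D k := Finsupp.mapDomain.addMonoidHom (fun (P : Fin (k + 1) → D.X) (j : Fin k) => P j.succ)
  let N : MultilinearMap ℤ (fun _ : Fin (k + 1) => Cyc1 D) (Cyc D k) :=
    LinearMap.uncurryLeft (LinearMap.smulRight (dg : Cyc1 D →+ ℤ).toIntLinearMap mulk)
  have hB : f.toIntLinearMap.compMultilinearMap mul = N := by
    refine Module.Basis.ext_multilinear (fun _ => Finsupp.basisSingleOne) ?_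
    intro v
    rw [LinearMap.compMultilinearMap_apply]
    have e2 : (fun i => (Finsupp.basisSingleOne (R := ℤ) (v i) : Cyc1 D)) = fun i => Finsupp.single (v i) 1 := by
      funext i
      rw [Finsupp.coe_basisSingleOne]
    rw [e2, hm, AddMonoidHom.coe_toIntLinearMap, LinearMap.uncurryLeft_apply, LinearMap.smulRight_apply,
      smul_apply, AddMonoidHom.coe_toIntLinearMap]
    have h3 : dg (Finsupp.single (v 0) 1 : Cyc1 D) = 1 := by
      rw [dg_eq, Finsupp.sum_single_index rfl]
    rw [h3, one_smul]
    change Finsupp.mapDomain (fun (P : Fin (k + 1) → D.X) (j : Fin k) => P j.succ) (Finsupp.single v 1) =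
      mulk fun j => Finsupp.single (v j.succ) 1
    rw [Finsupp.mapDomain_single, h2]
  have h7 := congrArg (fun M => M w) hB
  simp only [LinearMap.compMultilinearMap_apply, AddMonoidHom.coe_toIntLinearMap] at h7
  rw [LinearMap.uncurryLeft_apply, LinearMap.smulRight_apply, smul_apply, AddMonoidHom.coe_toIntLinearMap, h1] at h7
  exact h7

/-- alternating products of zero-cycles of degree zero are torsion if the alternating sums of points are -/
theorem alt0_of_pt {D : PD K} (hoff : ∀ π y, ¬ D.off π y) {k : ℕ} (hk : 0 < k) (h : AltPt D (k + 1)) : Alt0 D k := by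
  classical
  intro z hz
  rcases isEmpty_or_nonempty D.X with hE | ⟨⟨o⟩⟩
  · refine AddSubgroup.sum_mem _ fun σ _ => AddSubgroup.zsmul_mem _ ?_ _
    obtain ⟨mulk, h1, -⟩ := exists_mul D k
    rw [← h1, MultilinearMap.map_coord_zero mulk (⟨0, hk⟩ : Fin k) (Subsingleton.elim _ _)]
    exact AddSubgroup.zero_mem _
  · obtain ⟨mul, hmul, hpr⟩ := exists_mul D (k + 1)
    let A := MultilinearMap.alternatization mul
    let w : Fin (k + 1) → Cyc1 D := Fin.cons (Finsupp.single o 1) z
    have h1 : A w ∈ tor (RatEq D (k + 1)) := by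
      refine multi_mem (tor (RatEq D (k + 1))) A.toMultilinearMap
        (fun _ => {w : Cyc1 D | ∃ P, P ∈ (Set.univ : Set D.X) ∧ w = Finsupp.single P 1}) ?_ w
        (fun j => supp_closure (fun P _ => Set.mem_univ P))
      intro y hy
      choose P _ hP using hy
      have h4 : y = fun i => Finsupp.single (P i) 1 := funext hP
      change A y ∈ _
      rw [h4, alt_apply]
      refine Eq.mp (congrArg (fun t => t ∈ tor (RatEq D (k + 1))) ?_) (h P)
      refine Finset.sum_congr rfl fun σ _ => ?_
      rw [← hpr]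
    let f : Cyc D (k + 1) →+ Cyc D k := Finsupp.mapDomain.addMonoidHom (fun (P : Fin (k + 1) → D.X) (j : Fin k) => P j.succ)
    have h2 := map_tor f (fun x hx => tail_rat hoff hx) h1
    refine Eq.mp (congrArg (fun t => t ∈ tor (RatEq D k)) ?_) h2
    rw [alt_apply, map_sum]
    have h4 : ∑ σ : Perm (Fin (k + 1)), f ((sign σ : ℤ) • mul (fun i => w (σ i))) =
        ∑ q : Fin (k + 1) × Perm (Fin k), f ((sign (decomposeFin.symm q) : ℤ) • mul (fun i => w (decomposeFin.symm q i))) := by
      refine Fintype.sum_equiv decomposeFin _ _ fun σ => ?_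
      rw [Equiv.symm_apply_apply]
    rw [h4, Fintype.sum_prod_type, Finset.sum_eq_single 0]
    · refine Finset.sum_congr rfl fun e _ => ?_
      rw [map_zsmul, decomposeFin.symm_sign, if_pos rfl, one_mul]
      congr 1
      change Finsupp.mapDomain _ (mul fun i => w (decomposeFin.symm (0, e) i)) = _
      rw [tail_prod hpr]
      have h5 : w (decomposeFin.symm ((0 : Fin (k + 1)), e) 0) = Finsupp.single o 1 := by
        rw [decomposeFin_symm_apply_zero]
        rfl
      rw [h5, dg_eq, Finsupp.sum_single_index rfl, one_smul]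
      congr 1
    · intro l _ hl
      refine Finset.sum_eq_zero fun e _ => ?_
      rw [map_zsmul]
      have h6 : f (mul fun i => w (decomposeFin.symm (l, e) i)) = 0 := by
        change Finsupp.mapDomain _ (mul fun i => w (decomposeFin.symm (l, e) i)) = 0
        rw [tail_prod hpr, decomposeFin_symm_apply_zero]
        obtain ⟨t, rfl⟩ := Fin.exists_succ_eq.2 hl
        have h7 : dg (w t.succ) = 0 := by
          rw [dg_eq]
          exact hz t
        rw [h7, zero_smul]
      rw [h6, smul_zero]
    · intro hn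
      exact absurd (Finset.mem_univ _) hn

/-- transfer of the alternating relation along a correspondence -/
theorem alt_tr {D D' : PD K} {R : D.X → D'.X → Prop} {RY : D.Y → D'.Y → Prop} (h : Tr D D' R RY) (htot : ∀ x, ∃ x', R x x')
    (hsur : ∀ x', ∃ x, R x x') {a : ℕ} (hD : AltPt D a) : AltPt D' a := by
  classical
  intro P
  obtain ⟨g, hg⟩ : ∃ g : D.X → D'.X, ∀ x, R x (g x) := ⟨fun x => (htot x).choose, fun x => (htot x).choose_spec⟩
  obtain ⟨q, hq⟩ : ∃ q : D'.X → D.X, ∀ x', R (q x') x' := ⟨fun x => (hsur x).choose, fun x => (hsur x).choose_spec⟩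
  obtain ⟨mul, hmul, hpr⟩ := exists_mul D' a
  let f : Cyc D a →+ Cyc D' a := Finsupp.mapDomain.addMonoidHom (fun (P : Fin a → D.X) i => g (P i))
  have h1 : f (∑ σ : Perm (Fin a), (sign σ : ℤ) • (Finsupp.single (fun j => q (P (σ j))) 1 : Cyc D a)) ∈ tor (RatEq D' a) :=
    push_rel h hg (hD fun j => q (P j))
  rw [map_sum] at h1
  have h2 : ∑ σ : Perm (Fin a), ((sign σ : ℤ) • (Finsupp.single (fun j => P (σ j)) 1 : Cyc D' a) -
      f ((sign σ : ℤ) • (Finsupp.single (fun j => q (P (σ j))) 1 : Cyc D a))) ∈ tor (RatEq D' a) := by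
    refine AddSubgroup.sum_mem _ fun σ _ => ?_
    rw [map_zsmul, ← smul_sub]
    refine AddSubgroup.zsmul_mem _ ?_ _
    change Finsupp.single (fun j => P (σ j)) 1 - Finsupp.mapDomain _ (Finsupp.single _ 1) ∈ _
    rw [Finsupp.mapDomain_single, ← hpr, ← hpr]
    refine H77.PB.mul_con hpr _ _ fun i => ?_
    have h6 : (up (Finsupp.single (P (σ i)) 1 - Finsupp.single (g (q (P (σ i)))) 1) : Cyc D' 1) =
        Finsupp.single (fun _ => P (σ i)) 1 - Finsupp.single (fun _ => g (q (P (σ i)))) 1 := by
      rw [map_sub]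
      unfold up
      rw [Finsupp.mapDomain.addMonoidHom_apply, Finsupp.mapDomain.addMonoidHom_apply, Finsupp.mapDomain_single,
        Finsupp.mapDomain_single]
    rw [h6]
    exact h.uniq (q (P (σ i))) _ _ (hq _) (hg _)
  have h3 := AddSubgroup.add_mem _ h2 h1
  rwa [Finset.sum_sub_distrib, sub_add_cancel] at h3

end H77.GP
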