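import Pool.Agent.H77.GP.AltX
import Pool.Agent.H79.GM.Res

/-! # GP.AltMain : explicit bound for the alternating products on varieties with a correspondence from a product of elliptic surfaces -/

namespace H77.GP

open H68.BB (Om Place Rd)
open H77.AF H79.GM H77.PB

variable {K0 : Type} [Field K0] {r s m : ℕ}

/-- the alternating products on one elliptic surface over a smooth base, for the point data -/
theorem alt0_sm [IsAlgClosed K0] [CharZero K0] {W : ES.Wm K0 s} {d g : ℕ} (hW : W.Ok) (hB : RR.SmC W.v W.I d g)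
    (hab : ∀ c e : K0, MvPolynomial.C c * W.a ^ 3 - MvPolynomial.C e * W.b ^ 2 ∈ Ideal.span W.I → c = 0 ∧ e = 0)
    (K : Type) [Field K] [IsAlgClosed K] [Algebra K0 K] {k : ℕ} (hk : W.n * d + g ≤ k) : Alt0 (pw (bc K W)) k := by
  have hch : CharZero K := charZero_of_injective_algebraMap (algebraMap K0 K).injective
  have hab' : ∀ c e : K, MvPolynomial.C c * (bc K W).a ^ 3 - MvPolynomial.C e * (bc K W).b ^ 2 ∈ Ideal.span (bc K W).I → c = 0 ∧ e = 0 :=
    fun c e h => by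
      refine H79.BC.indep_bc hab c e ?_
      rw [map_pow, map_pow]
      exact h
  refine alt0_W hW K fun z h1 h2 => ?_
  rw [← altz_altX]
  exact ES.altz_mem h1 fun _ hP => RR.main_sm (W := bc K W) (bc_ok hW) (H79.BC.smC_bc hB) hab' hk fun i => bc_on.2 (h2 i _ (hP i))

/-- the explicit bound `∏ (n_i d_i + g_i)` -/
theorem alt_main [IsAlgClosed K0] [CharZero K0] {W : Fin r → ES.Wm K0 s} {d g : Fin r → ℕ} (hW : ∀ i, (W i).Ok)
    (hB : ∀ i, RR.SmC (W i).v (W i).I (d i) (g i))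
    (hab : ∀ i, ∀ c e : K0, MvPolynomial.C c * (W i).a ^ 3 - MvPolynomial.C e * (W i).b ^ 2 ∈ Ideal.span (W i).I → c = 0 ∧ e = 0)
    {X : Var K0 m} {G : Set (MvPolynomial (Ix r s m) K0)} (hX : X.Ok) (hG : Cor W X G) (hs : OntoX W X G)
    {k : ℕ} (hk : ∏ i, ((W i).n * d i + g i) ≤ k) (K : Type) [Field K] [IsAlgClosed K] [Algebra K0 K]
    (z : Fin k → ((Fin m → K) →₀ ℤ)) (hdeg : ∀ i, ((z i).sum fun _ n => n) = 0) (hz : ∀ i, ∀ u ∈ (z i).support, OnV X u) :
    ∃ N : ℕ, 0 < N ∧ N • altX z ∈ RatV X K k := by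
  refine alt_X hX hG hs K (fun i => alt0_sm (hW i) (hB i) (hab i) K le_rfl) ?_ hk z hdeg hz
  refine lt_of_lt_of_le (Finset.prod_pos fun i _ => ?_) hk
  exact Nat.add_pos_left (Nat.mul_pos (hW i).n (hB i).dpos) _

end H77.GP
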