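import Pool.Agent.H77.GP.Comb

/-! # GP.Comb2 : alternating relations on the diagonal of several permutations (Mathlib only)

`diag_rel`: if `f (σ, τ)` satisfies `AltRel a` in `σ` and `AltRel b` in `τ` then `f (σ, σ)` satisfies `AltRel ((a - 1) (b - 1) + 1)`; `multi_alt`: the same for several variables. -/

namespace H77.GP

open Equiv Equiv.Perm

variable {ι : Type} [Fintype ι] [LinearOrder ι]

theorem sum_supp {M : Type} [AddCommGroup M] (s : Finset ι) (t : Finset {x // x ∈ s}) (G : Perm ι → M) :
    ∑ ρ ∈ supp (t.map (Function.Embedding.subtype _)), (sign ρ : ℤ) • G ρ =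
      ∑ π ∈ supp t, (sign π : ℤ) • G (ofSubtype π) := by
  classical
  symm
  refine Finset.sum_bij (fun π _ => ofSubtype π) ?_ ?_ ?_ ?_
  · intro π hπ
    refine mem_supp.2 fun i hi => ?_
    by_cases his : i ∈ s
    · rw [ofSubtype_apply_of_mem π his]
      have h1 : (⟨i, his⟩ : {x // x ∈ s}) ∉ t := fun h => hi (Finset.mem_map.2 ⟨⟨i, his⟩, h, rfl⟩)
      rw [mem_supp.1 hπ _ h1]
    · exact ofSubtype_apply_of_not_mem π his
  · intro π _ π' _ h
    exact ofSubtype_injective h
  · intro ρ hρ
    have hout : ∀ i, i ∉ s → ρ i = i := fun i hi => mem_supp.1 hρ i fun h => by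
      obtain ⟨x, -, rfl⟩ := Finset.mem_map.1 h
      exact hi x.2
    have h1 : ∀ x, ρ x ∈ s ↔ x ∈ s := by
      intro x
      constructor
      · intro h
        by_contra hn
        rw [hout x hn] at h
        exact hn h
      · intro h
        exact mem_of_supp (mem_supp.2 hout) h
    have h2 : ∀ x, ρ x ≠ x → x ∈ s := fun x hx => by
      by_contra hn
      exact hx (hout x hn)
    refine ⟨subtypePerm ρ h1, ?_, ofSubtype_subtypePerm h1 h2⟩
    refine mem_supp.2 fun i hi => ?_
    apply Subtype.ext
    change ρ i.1 = i.1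
    refine mem_supp.1 hρ _ fun h => ?_
    obtain ⟨x, hx, he⟩ := Finset.mem_map.1 h
    have h3 : x = i := Subtype.ext he
    rw [h3] at hx
    exact hi hx
  · intro π _
    rw [sign_ofSubtype]

theorem diag_rel {M : Type} [AddCommGroup M] {a b : ℕ} (f : Perm ι → Perm ι → M)
    (h1 : ∀ τ, AltRel a fun σ => f σ τ) (h2 : ∀ σ, AltRel b fun τ => f σ τ) :
    AltRel ((a - 1) * (b - 1) + 1) fun σ => f σ σ := by
  classical
  intro σ s hs
  have h3 : (Finset.univ : Finset {x // x ∈ s}).map (Function.Embedding.subtype _) = s := by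
    rw [Finset.univ_eq_attach, Finset.attach_map_val]
  have h4 := sum_supp s Finset.univ (fun ρ => f (σ * ρ) (σ * ρ))
  rw [h3] at h4
  change ∑ ρ ∈ supp s, (sign ρ : ℤ) • f (σ * ρ) (σ * ρ) = 0
  rw [h4]
  have h5 : supp (Finset.univ : Finset {x // x ∈ s}) = Finset.univ := by
    refine Finset.eq_univ_of_forall fun π => mem_supp.2 fun i hi => absurd (Finset.mem_univ i) hi
  rw [h5]
  refine diag_alt (ι := {x // x ∈ s}) (a := a) (b := b) ?_ (fun π π' => f (σ * ofSubtype π) (σ * ofSubtype π')) ?_ ?_
  · rw [Fintype.card_coe, hs]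
    omega
  · intro τ π t ht
    have h6 := h1 (σ * ofSubtype τ) (σ * ofSubtype π) (t.map (Function.Embedding.subtype _)) (by rw [Finset.card_map, ht])
    have h7 := sum_supp s t (fun ρ => f (σ * ofSubtype π * ρ) (σ * ofSubtype τ))
    have h8 := h7.symm.trans h6
    refine Eq.trans (Finset.sum_congr rfl fun ρ _ => ?_) h8
    change (sign ρ : ℤ) • f (σ * ofSubtype (π * ρ)) (σ * ofSubtype τ) = _
    rw [map_mul, mul_assoc]
  · intro π τ t ht
    have h6 := h2 (σ * ofSubtype π) (σ * ofSubtype τ) (t.map (Function.Embedding.subtype _)) (by rw [Finset.card_map, ht])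
    have h7 := sum_supp s t (fun ρ => f (σ * ofSubtype π) (σ * ofSubtype τ * ρ))
    have h8 := h7.symm.trans h6
    refine Eq.trans (Finset.sum_congr rfl fun ρ _ => ?_) h8
    change (sign ρ : ℤ) • f (σ * ofSubtype π) (σ * ofSubtype (τ * ρ)) = _
    rw [map_mul, mul_assoc]

theorem const_alt {M : Type} [AddCommGroup M] (x : M) : AltRel 2 fun _ : Perm ι => x := by
  classical
  intro σ s hs
  obtain ⟨i, j, hij, rfl⟩ := Finset.card_eq_two.1 hs
  refine Finset.sum_involution (fun ρ _ => swap i j * ρ) ?_ ?_ ?_ ?_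
  · intro ρ _
    rw [Perm.sign_mul, sign_swap hij]
    simp
  · intro ρ _ _ h
    have h2 : swap i j = 1 := by
      have := congrArg (fun x => x * ρ⁻¹) h
      simpa using this
    exact hij (Equiv.swap_eq_one_iff.1 h2)
  · intro ρ hρ
    refine mem_supp.2 fun l hl => ?_
    rw [Finset.mem_insert, Finset.mem_singleton, not_or] at hl
    rw [Perm.mul_apply, mem_supp.1 hρ l (by rw [Finset.mem_insert, Finset.mem_singleton, not_or]; exact hl),
      swap_apply_of_ne_of_ne hl.1 hl.2]
  · intro ρ _
    rw [← mul_assoc, swap_mul_self, one_mul]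

/-- several variables -/
theorem multi_alt {M : Type} [AddCommGroup M] : ∀ (r : ℕ) (a : Fin r → ℕ) (f : (Fin r → Perm ι) → M),
    (∀ (i : Fin r) (τ : Fin r → Perm ι), AltRel (a i) fun σ => f (Function.update τ i σ)) →
      AltRel (∏ i, (a i - 1) + 1) fun σ => f fun _ => σ := by
  intro r
  induction r with
  | zero =>
    intro a f _
    rw [Finset.univ_eq_empty, Finset.prod_empty]
    have h1 : (fun σ : Perm ι => f fun _ => σ) = fun _ => f fun i => i.elim0 := by
      funext σ
      congr 1
      funext i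
      exact i.elim0
    rw [h1]
    exact const_alt _
  | succ r ih =>
    intro a f h
    have h1 := diag_rel (a := a 0) (b := ∏ i : Fin r, (a i.succ - 1) + 1)
      (fun σ τ => f (Fin.cons σ fun _ => τ)) ?_ ?_
    · rw [Nat.add_sub_cancel, ← Fin.prod_univ_succ (fun i => a i - 1)] at h1
      have h2 : (fun σ : Perm ι => f (Fin.cons σ fun _ => σ)) = fun σ => f fun _ => σ := by
        funext σ
        congr 1
        funext i
        refine Fin.cases ?_ (fun i => ?_) i
        · rfl
        · rfl
      rw [h2] at h1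
      exact h1
    · intro τ
      have h2 := h 0 (Fin.cons 1 fun _ => τ)
      have h3 : (fun σ : Perm ι => f (Function.update (Fin.cons 1 fun _ => τ : Fin (r + 1) → Perm ι) 0 σ)) =
          fun σ => f (Fin.cons σ fun _ => τ) := by
        funext σ
        rw [Fin.update_cons_zero]
      rw [h3] at h2
      exact h2
    · intro σ
      refine ih (fun i => a i.succ) (fun θ => f (Fin.cons σ θ)) fun i τ => ?_
      have h2 := h i.succ (Fin.cons σ τ)
      have h3 : (fun ρ : Perm ι => f (Function.update (Fin.cons σ τ : Fin (r + 1) → Perm ι) i.succ ρ)) =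
          fun ρ => f (Fin.cons σ (Function.update τ i ρ)) := by
        funext ρ
        rw [Fin.cons_update]
      rw [h3] at h2
      exact h2

end H77.GP
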