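import Pool.Agent.H77.GP.Prod
import Pool.Agent.H77.GP.Comb2

/-! # GP.AltP : alternating products on products of varieties

`AltPt D a`: the alternating sums of `a` points are torsion in `CH_0` of the `a`-fold power.
`alt_prod`: if `AltPt (D i) (a i)` for all `i`, then `AltPt (∏ D i) (∏ (a i - 1) + 1)`. -/

namespace H77.GP

open H68.BB (Om Place)
open H77.AF Equiv Equiv.Perm

variable {K : Type} [Field K]

/-- the alternating sums of `a` points are torsion -/
def AltPt (D : PD K) (a : ℕ) : Prop :=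
  ∀ P : Fin a → D.X, ∑ σ : Perm (Fin a), (sign σ : ℤ) • (Finsupp.single (fun j => P (σ j)) 1 : Cyc D a) ∈ tor (RatEq D a)

/-- the element of the `N`-fold product given by the tuple `P` and the permutations `τ i` of the coordinates -/
def perm {r : ℕ} {D : Fin r → PD K} {N : ℕ} (P : Fin N → ∀ i, (D i).X) (τ : Fin r → Perm (Fin N)) : Fin N → ∀ i, (D i).X :=
  fun l i => P (τ i l) i

theorem map_tor {A B : Type} [AddCommGroup A] [AddCommGroup B] {H : AddSubgroup A} {H' : AddSubgroup B} (f : A →+ B)
    (h : ∀ x ∈ H, f x ∈ H') {x : A} (hx : x ∈ tor H) : f x ∈ tor H' := by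
  obtain ⟨N, hN, h1⟩ := hx
  refine ⟨N, hN, ?_⟩
  rw [← map_nsmul]
  exact h _ h1

theorem supp_univ {ι : Type} [Fintype ι] [LinearOrder ι] : supp (Finset.univ : Finset ι) = Finset.univ :=
  Finset.eq_univ_of_forall fun _ => mem_supp.2 fun i hi => absurd (Finset.mem_univ i) hi

theorem alt_rel {r : ℕ} {D : Fin r → PD K} {N : ℕ} (P : Fin N → ∀ i, (D i).X) (i : Fin r) {a : ℕ} (h : AltPt (D i) a)
    (τ : Fin r → Perm (Fin N)) (σ : Perm (Fin N)) (s : Finset (Fin N)) (hs : s.card = a) :
    ∑ ρ ∈ supp s, (sign ρ : ℤ) • (Finsupp.single (perm P (Function.update τ i (σ * ρ))) 1 : Cyc (prodPD D) N) ∈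
      tor (RatEq (prodPD D) N) := by
  classical
  let e : Fin a ≃o s := s.orderIsoOfFin hs
  let ι : Fin a → Fin N := fun t => (e t).1
  have hι : Function.Injective ι := fun t t' ht => e.injective (Subtype.ext ht)
  let Q0 : Fin N → ∀ i, (D i).X := perm P (Function.update τ i σ)
  let p : Fin a → (D i).X := fun t => P (σ (ι t)) i
  let U : Cyc (D i) a →+ Cyc (prodPD D) a := Finsupp.mapDomain.addMonoidHom
    (fun (P : Fin a → (D i).X) (j : Fin a) => (Function.update (Q0 (ι j)) i (P j) : ∀ i, (D i).X))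
  let V : Cyc (prodPD D) a →+ Cyc (prodPD D) N := Finsupp.mapDomain.addMonoidHom (fill ι Q0)
  have h1 := map_tor V (fun x hx => ins hι Q0 hx) (map_tor U (fun x hx => rat_upd i (fun j => Q0 (ι j)) hx) (h p))
  rw [map_sum, map_sum] at h1
  refine Eq.mp (congrArg (fun t => t ∈ tor (RatEq (prodPD D) N)) ?_) h1
  have h3 : (Finset.univ : Finset {x // x ∈ s}).map (Function.Embedding.subtype _) = s := by
    rw [Finset.univ_eq_attach, Finset.attach_map_val]
  have h4 := sum_supp s Finset.univ
    (fun ρ => (Finsupp.single (perm P (Function.update τ i (σ * ρ))) 1 : Cyc (prodPD D) N))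
  rw [h3, supp_univ] at h4
  rw [h4]
  refine Fintype.sum_equiv (e.toEquiv.permCongr) _ _ fun π => ?_
  rw [Equiv.Perm.sign_permCongr, map_zsmul, map_zsmul]
  congr 1
  change Finsupp.mapDomain (fill ι Q0) (Finsupp.mapDomain _ (Finsupp.single _ 1)) = _
  rw [Finsupp.mapDomain_single, Finsupp.mapDomain_single]
  congr 1
  funext l
  by_cases hl : ∃ t, ι t = l
  · obtain ⟨t, rfl⟩ := hl
    rw [fill_at hι]
    funext k
    have h5 : ofSubtype (e.toEquiv.permCongr π) (ι t) = ι (π t) := by
      rw [ofSubtype_apply_of_mem _ (e t).2]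
      change (e.toEquiv.permCongr π (e t)).1 = (e (π t)).1
      rw [Equiv.permCongr_apply]
      change (e (π (e.symm (e t)))).1 = (e (π t)).1
      rw [OrderIso.symm_apply_apply]
    change Function.update (Q0 (ι t)) i (P (σ (ι (π t))) i) k =
      P (Function.update τ i (σ * ofSubtype (e.toEquiv.permCongr π)) k (ι t)) k
    by_cases hk : k = i
    · subst hk
      rw [Function.update_self, Function.update_self, Perm.mul_apply, h5]
    · rw [Function.update_of_ne hk, Function.update_of_ne hk]
      change P (Function.update τ i σ k (ι t)) k = _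
      rw [Function.update_of_ne hk]
  · have hl' : ∀ t, ι t ≠ l := fun t ht => hl ⟨t, ht⟩
    rw [fill_off _ _ hl']
    funext k
    have h5 : ofSubtype (e.toEquiv.permCongr π) l = l := by
      refine ofSubtype_apply_of_not_mem _ fun hls => ?_
      refine hl' (e.symm ⟨l, hls⟩) ?_
      change (e (e.symm ⟨l, hls⟩)).1 = l
      rw [OrderIso.apply_symm_apply]
    change P (Function.update τ i σ k l) k =
      P (Function.update τ i (σ * ofSubtype (e.toEquiv.permCongr π)) k l) k
    by_cases hk : k = i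
    · subst hk
      rw [Function.update_self, Function.update_self, Perm.mul_apply, h5]
    · rw [Function.update_of_ne hk, Function.update_of_ne hk]

theorem alt_prod {r : ℕ} {D : Fin r → PD K} {a : Fin r → ℕ} (h : ∀ i, AltPt (D i) (a i)) :
    AltPt (prodPD D) (∏ i, (a i - 1) + 1) := by
  classical
  intro P
  let H := tor (RatEq (prodPD D) (∏ i, (a i - 1) + 1))
  let q : Cyc (prodPD D) (∏ i, (a i - 1) + 1) →+ Cyc (prodPD D) (∏ i, (a i - 1) + 1) ⧸ H := QuotientAddGroup.mk' H
  have h1 := multi_alt r a (fun τ => q (Finsupp.single (perm P τ) 1)) ?_ 1 Finset.univ (by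
    rw [Finset.card_univ, Fintype.card_fin])
  · rw [supp_univ] at h1
    rw [← QuotientAddGroup.eq_zero_iff]
    change q (∑ σ, _) = 0
    rw [map_sum]
    refine Eq.trans (Finset.sum_congr rfl fun σ _ => ?_) h1
    rw [map_zsmul, one_mul]
    rfl
  · intro i τ σ s hs
    have h2 := alt_rel P i (h i) τ σ s hs
    have h3 : q (∑ ρ ∈ supp s, (sign ρ : ℤ) • (Finsupp.single (perm P (Function.update τ i (σ * ρ))) 1 : Cyc (prodPD D) _)) = 0 :=
      (QuotientAddGroup.eq_zero_iff _).2 h2
    rw [map_sum] at h3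
    refine Eq.trans (Finset.sum_congr rfl fun ρ _ => ?_) h3
    rw [map_zsmul]

end H77.GP
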