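import Pool.Agent.H77.GP.Def
import Pool.Agent.H77.GP.Prod
import Pool.Agent.H79.GM.XPd
import Pool.Agent.H79.GM.Trans

/-! # GP.Clo : the correspondence `Γ` on the level of point data -/

namespace H77.GP

open H68.BB (Om Place Rd)
open H77.AF H79.GM H77.PB

variable {K0 : Type} [Field K0] {r s m : ℕ} {K : Type} [Field K] [Algebra K0 K]

theorem inM_sigma {G : Set (MvPolynomial (Ix r s m) K0)} (σ : Om K ≃ₐ[RatFunc K] Om K) {P : Fin r → ES.Pt s (Om K)}
    {U : Fin m → Om K} (h : InM G P U) : InM G (fun i => (P i).map σ) fun j => σ (U j) := by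
  intro f hf
  have h1 : crd (fun i => (P i).map σ) (fun j => σ (U j)) = fun q => (σ.restrictScalars K0 : Om K ≃ₐ[K0] Om K) (crd P U q) := by
    funext q
    rcases q with ⟨i, j | j⟩ | j
    · rfl
    · fin_cases j
      · rfl
      · rfl
    · rfl
  have h2 := aeval_hom ((σ.restrictScalars K0 : Om K ≃ₐ[K0] Om K) : Om K →ₐ[K0] Om K) f (crd P U)
  rw [h f hf, map_zero] at h2
  rw [h1]
  exact h2

/-- `Γ` is closed -/
theorem inM_sp {W : Fin r → ES.Wm K0 s} {X : Var K0 m} {G : Set (MvPolynomial (Ix r s m) K0)} (hG : MHom W X G)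
    {π : Place K (Om K)} {P : Fin r → ES.Pt s (Om K)} {p : Fin r → ES.Pt s K} {U : Fin m → Om K} {u : Fin m → K} (h : InM G P U)
    (hP : ∀ i, ES.Sp (bc K (W i)) π (P i) (p i)) (hU : FX.SpV X.w π U u) : InM G p u := by
  classical
  have hP' := fun i => (hP i).2
  choose c hc hβ hx hy using hP'
  obtain ⟨hu0, d, hd, hU⟩ := hU
  intro f hf
  obtain ⟨hI, e', he'⟩ := hG f hf
  have h1 : MvPolynomial.aeval (fun q => d ^ wtX r s X q * crd P U q) f = 0 := by
    rw [aeval_scale he', h f hf, mul_zero]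
  let z : Finset (Fin r) → Ix r s m → Om K := fun A => Sum.elim
    (fun p => if p.1 ∈ A then c p.1 ^ wtG (W p.1) p.2 * (d ^ wtX r s X (Sum.inl p) * crd P U (Sum.inl p)) else
      d ^ wtX r s X (Sum.inl p) * crd P U (Sum.inl p)) fun j => d ^ wtX r s X (Sum.inr j) * crd P U (Sum.inr j)
  have z1 : ∀ (A : Finset (Fin r)) (p : Fin r × (Fin s ⊕ Fin 2)), p.1 ∈ A → z A (Sum.inl p) =
      c p.1 ^ wtG (W p.1) p.2 * (d ^ wtX r s X (Sum.inl p) * crd P U (Sum.inl p)) := fun A p h => if_pos h
  have z2 : ∀ (A : Finset (Fin r)) (p : Fin r × (Fin s ⊕ Fin 2)), p.1 ∉ A → z A (Sum.inl p) =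
      d ^ wtX r s X (Sum.inl p) * crd P U (Sum.inl p) := fun A p h => if_neg h
  have z3 : ∀ (A : Finset (Fin r)) (j : Fin m), z A (Sum.inr j) = d ^ wtX r s X (Sum.inr j) * crd P U (Sum.inr j) :=
    fun A j => rfl
  have h2 : ∀ A : Finset (Fin r), MvPolynomial.aeval (z A) f = 0 := by
    intro A
    induction A using Finset.induction_on with
    | empty =>
      have h3 : z ∅ = fun q => d ^ wtX r s X q * crd P U q := by
        funext q
        rcases q with p | j
        · exact z2 _ _ (Finset.notMem_empty _)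
        · rfl
      rw [h3]
      exact h1
    | insert i A hi ih =>
      obtain ⟨e, he⟩ := hI i
      have h3 : z (insert i A) = fun q => c i ^ wtI W m i q * z A q := by
        funext q
        rcases q with p | j
        · have hw : wtI W m i (Sum.inl p) = if p.1 = i then wtG (W i) p.2 else 0 := rfl
          by_cases hp : p.1 = i
          · have hpA : p.1 ∉ A := by rw [hp]; exact hi
            rw [z1 _ _ (by rw [hp]; exact Finset.mem_insert_self _ _), z2 _ _ hpA, hw, if_pos hp, hp]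
          · rw [hw, if_neg hp, pow_zero, one_mul]
            by_cases hpA : p.1 ∈ A
            · rw [z1 _ _ (Finset.mem_insert_of_mem hpA), z1 _ _ hpA]
            · rw [z2 _ _ (by rw [Finset.mem_insert, not_or]; exact ⟨hp, hpA⟩), z2 _ _ hpA]
        · have hw : wtI W m i (Sum.inr j) = 0 := rfl
          rw [hw, pow_zero, one_mul, z3, z3]
      rw [h3, aeval_scale he, ih, mul_zero]
  have h4 : ∀ q, Rd π.V π.φ (z Finset.univ q) (crd p u q) := by
    intro q
    rcases q with ⟨i, j⟩ | j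
    · have h5 : z Finset.univ (Sum.inl (i, j)) = c i ^ wtG (W i) j * crd P U (Sum.inl (i, j)) := by
        have hw : wtX r s X (Sum.inl (i, j)) = 0 := rfl
        rw [z1 _ _ (Finset.mem_univ _), hw, pow_zero, one_mul]
      rw [h5]
      rcases j with j | j
      · exact hβ i j
      · fin_cases j
        · exact hx i
        · exact hy i
    · exact hU j
  have h6 := rd_aeval f h4
  rw [h2 Finset.univ] at h6
  exact h6.unique Rd.zero

theorem tr_cor {W : Fin r → ES.Wm K0 s} {X : Var K0 m} {G : Set (MvPolynomial (Ix r s m) K0)} (hX : X.Ok)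
    (hG : Cor W X G) (K : Type) [Field K] [IsAlgClosed K] [Algebra K0 K] :
    Tr (prodPD fun i => pw (bc K (W i))) (xv X K) (fun P u => InM G (fun i => (P i).1) u.1)
      (fun P U => InM G (fun i => (P i).1) U.1) where
  totY y := by
    obtain ⟨u, hu1, hu2⟩ := hG.tot (Om K) (fun i => (y i).1) (fun i => bc_on.1 (y i).2)
    exact ⟨⟨u, hu1⟩, hu2⟩
  act σ y y' h := inM_sigma σ h
  one y := rfl
  mul σ τ y := rfl
  one' y := rfl
  mul' σ τ y := rfl
  off π y := fun ⟨i, hi⟩ => hi
  fin := xv_fin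
  prp := xv_prp hX
  spec π y y' x x' h h1 h2 := inM_sp hG.hom h h1 h2
  uniq x x' x'' h1 h2 := by
    obtain ⟨N, hN, h3⟩ := hG.uniq K (fun i => (x i).1) x'.1 x''.1 (fun i => bc_on.1 (x i).2) x'.2 x''.2 h1 h2
    refine ⟨N, hN, of_ratV hX ?_⟩
    have h4 : ∀ z : Cyc (xv X K) 1, (Finsupp.mapDomain (fun (P : Fin 1 → (xv X K).X) i => (P i).1) z : (Fin 1 → Fin m → K) →₀ ℤ) =
        Finsupp.mapDomain.addMonoidHom (fun (P : Fin 1 → (xv X K).X) i => (P i).1) z := fun _ => rfl
    rw [h4, map_nsmul, map_sub, ← h4, ← h4, Finsupp.mapDomain_single, Finsupp.mapDomain_single]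
    exact h3

end H77.GP
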