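import Pool.Agent.H77.GP.AltM
import Pool.Agent.H77.GP.Clo
import Pool.Agent.H79.GM.Main

/-! # GP.AltX : alternating products on varieties with a correspondence from a product of elliptic surfaces

`alt_X`: if the alternating products of `k i` zero-cycles of degree zero are torsion on `W i`, then the alternating products of `l ≥ ∏ k i` zero-cycles of degree zero are torsion on `X`. -/

namespace H77.GP

open H68.BB (Om Place Rd)
open H77.AF H79.GM H77.PB

variable {K0 : Type} [Field K0] {r s m : ℕ}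

/-- auxiliary point data with given set of points -/
private def dum (K : Type) [Field K] (T : Type) : PD K where
  X := T
  Y := T
  act _ y := y
  sp _ y x := y = x
  off _ _ := False
  cst x := x
  act_cst _ _ := rfl
  sp_cst _ _ := rfl

private theorem prodX_map' {K : Type} [Field K] {T T' : Type} (w : T → T') {k : ℕ} (z : Fin k → (T →₀ ℤ)) :
    (Finsupp.mapDomain (fun (P : Fin k → T) i => w (P i)) (prodX z) : (Fin k → T') →₀ ℤ) = prodX (fun i => (z i).mapDomain w) :=
  map_prodM (D := dum K T) (E := dum K T') (fun _ => w) z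

/-- the alternating sum of products of zero-cycles of point data is the explicit one -/
private theorem map_alt {K : Type} [Field K] {D : PD K} {T : Type} (w : D.X → T) {k : ℕ} (N : ℕ) (z : Fin k → Cyc1 D) :
    (Finsupp.mapDomain (fun (P : Fin k → D.X) i => w (P i)) (N • ∑ σ : Equiv.Perm (Fin k), (Equiv.Perm.sign σ : ℤ) •
      prodM (fun i => z (σ i)) : Cyc D k) : (Fin k → T) →₀ ℤ) = N • altX (fun i => (z i).mapDomain w) := by
  have h1 := map_nsmul (Finsupp.mapDomain.addMonoidHom (fun (P : Fin k → D.X) i => w (P i)) : Cyc D k →+ ((Fin k → T) →₀ ℤ)) N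
    (∑ σ : Equiv.Perm (Fin k), (Equiv.Perm.sign σ : ℤ) • prodM (fun i => z (σ i)))
  refine h1.trans (congrArg (fun t => N • t) ?_)
  have h2 := map_sum (Finsupp.mapDomain.addMonoidHom (fun (P : Fin k → D.X) i => w (P i)) : Cyc D k →+ ((Fin k → T) →₀ ℤ))
    (fun σ : Equiv.Perm (Fin k) => (Equiv.Perm.sign σ : ℤ) • prodM (fun i => z (σ i))) Finset.univ
  unfold altX
  refine h2.trans (Finset.sum_congr rfl fun σ _ => ?_)
  rw [map_zsmul]
  congr 1
  exact prodX_map' (K := K) (T := D.X) w (fun i => z (σ i))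

/-- the alternating products on one elliptic surface, for the point data -/
theorem alt0_W {W : ES.Wm K0 s} (hW : W.Ok) (K : Type) [Field K] [IsAlgClosed K] [Algebra K0 K] {k : ℕ}
    (hk : ∀ z : Fin k → (ES.Pt s K →₀ ℤ), (∀ i, ((z i).sum fun _ n => n) = 0) → (∀ i, ∀ P ∈ (z i).support, ES.OnW W P) →
      ∃ N : ℕ, 0 < N ∧ N • altX z ∈ ES.RatEq k (bc K W)) : Alt0 (pw (bc K W)) k := by
  classical
  intro z hz
  obtain ⟨N, hN, h1⟩ := hk (fun i => Finsupp.mapDomain Subtype.val (z i)) (fun i => (deg_map _ _).trans (hz i)) (by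
    intro i P hP
    have h2 := Finsupp.mapDomain_support hP
    rw [Finset.mem_image] at h2
    obtain ⟨Q, hQ, rfl⟩ := h2
    exact bc_on.1 Q.2)
  refine ⟨N, hN, of_ratES (bc_ok hW) ?_⟩
  have h2 : (Finsupp.mapDomain (fun (P : Fin k → (pw (bc K W)).X) i => (P i).1) (N • ∑ σ : Equiv.Perm (Fin k),
      (Equiv.Perm.sign σ : ℤ) • prodM (fun i => z (σ i)) : Cyc (pw (bc K W)) k) : (Fin k → ES.Pt s K) →₀ ℤ) =
      N • altX (fun i => Finsupp.mapDomain Subtype.val (z i)) := map_alt (D := pw (bc K W)) (fun P => P.1) N z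
  rw [h2]
  exact h1

theorem alt_X {W : Fin r → ES.Wm K0 s} {X : Var K0 m} {G : Set (MvPolynomial (Ix r s m) K0)} (hX : X.Ok) (hG : Cor W X G)
    (hs : OntoX W X G) (K : Type) [Field K] [IsAlgClosed K] [Algebra K0 K] {k : Fin r → ℕ} (h : ∀ i, Alt0 (pw (bc K (W i))) (k i))
    {l : ℕ} (h0 : 0 < l) (hl : ∏ i, k i ≤ l) (z : Fin l → ((Fin m → K) →₀ ℤ)) (hdeg : ∀ i, ((z i).sum fun _ n => n) = 0)
    (hz : ∀ i, ∀ u ∈ (z i).support, OnV X u) :
    ∃ N : ℕ, 0 < N ∧ N • altX z ∈ RatV X K l := by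
  classical
  have h1 : AltPt (prodPD fun i => pw (bc K (W i))) (l + 1) := by
    refine alt_mono (alt_prod fun i => pt_of_alt0 (h i)) ?_
    simp only [Nat.add_sub_cancel]
    omega
  have h2 := alt_tr (tr_cor hX hG K) (fun x => by
    obtain ⟨u, hu1, hu2⟩ := hG.tot K (fun i => (x i).1) (fun i => bc_on.1 (x i).2)
    exact ⟨⟨u, hu1⟩, hu2⟩) (fun u => by
    obtain ⟨P, hP1, hP2⟩ := hs K u.1 u.2
    exact ⟨fun i => ⟨P i, bc_on.2 (hP1 i)⟩, hP2⟩) h1
  have h3 := alt0_of_pt (D := xv X K) (fun π y hy => hy) h0 h2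
  let z' : Fin l → Cyc1 (xv X K) := fun i => (z i).subtypeDomain (fun u => OnV X u)
  have hz' : ∀ i, Finsupp.mapDomain Subtype.val (z' i) = z i := fun i => map_sub' fun u hu => hz i u hu
  obtain ⟨N, hN, h4⟩ := h3 z' (fun i => by
      have h5 := deg_map Subtype.val (z' i)
      rw [hz' i, hdeg i] at h5
      exact h5.symm)
  refine ⟨N, hN, ?_⟩
  have h6 := to_ratV h4
  have h7 : (Finsupp.mapDomain (fun (P : Fin l → (xv X K).X) i => (P i).1) (N • ∑ σ : Equiv.Perm (Fin l),
      (Equiv.Perm.sign σ : ℤ) • prodM (fun i => z' (σ i)) : Cyc (xv X K) l) : (Fin l → Fin m → K) →₀ ℤ) =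
      N • altX (fun i => Finsupp.mapDomain Subtype.val (z' i)) := map_alt (D := xv X K) (fun u => u.1) N z'
  rw [h7, funext hz'] at h6
  exact h6

end H77.GP
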