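import Mathlib

/-! # GP.Comb : alternating relations and the diagonal (Mathlib only)

`AltRel a F`: `F` is a function on the permutations of `ι` and for every permutation `σ` and every set `s` of `a` positions the alternating sum of `F (σ ρ)` over the permutations `ρ` of `s` is zero.
`diag_alt`: if `f (σ, τ)` satisfies `AltRel a` in `σ` and `AltRel b` in `τ`, and `(a - 1) (b - 1) < card ι`, then the alternating sum of `f (σ, σ)` is zero.

Proof.  Straightening: `F σ` is an integral combination of the `F g`, `g` without decreasing subsequence of length `a`, with universal coefficients (induction on the lexicographic order of the words).  For such `g` there is a colouring `p` of the positions with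
`a - 1` colours such that `g` is increasing on the colour classes; `φ σ = [p ∘ g⁻¹ ∘ σ = p]` satisfies `AltRel a` and `φ τ ≠ 0` implies `g ≤ τ` lexicographically.  So the universal coefficients `E (g, h)` of the alternating sum of `f (σ, σ)` vanish,
by evaluation at the functions `φ (σ) ψ (τ)`: the alternating sum of `φ (σ) ψ (σ)` is zero as two positions have the same pair of colours. -/

namespace H77.GP

open Equiv Equiv.Perm

variable {ι : Type} [Fintype ι] [LinearOrder ι]

/-- the permutations which fix all positions outside `s` -/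
def supp (s : Finset ι) : Finset (Perm ι) := Finset.univ.filter fun ρ => ∀ i, i ∉ s → ρ i = i

theorem mem_supp {s : Finset ι} {ρ : Perm ι} : ρ ∈ supp s ↔ ∀ i, i ∉ s → ρ i = i := by
  unfold supp
  rw [Finset.mem_filter]
  exact ⟨fun h => h.2, fun h => ⟨Finset.mem_univ _, h⟩⟩

theorem mem_of_supp {s : Finset ι} {ρ : Perm ι} (h : ρ ∈ supp s) {i : ι} (hi : i ∈ s) : ρ i ∈ s := by
  by_contra hn
  have h1 := mem_supp.1 h _ hn
  have h2 := ρ.injective h1
  rw [h2] at hn
  exact hn hi

/-- alternating relations in any `a` positions -/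
def AltRel {M : Type} [AddCommGroup M] (a : ℕ) (F : Perm ι → M) : Prop :=
  ∀ (σ : Perm ι) (s : Finset ι), s.card = a → ∑ ρ ∈ supp s, (sign ρ : ℤ) • F (σ * ρ) = 0

/-- no decreasing subsequence of length `a` -/
def Good (a : ℕ) (g : Perm ι) : Prop := ∀ s : Finset ι, s.card = a → ¬ StrictAntiOn g (s : Set ι)

/-- the lexicographic order of the words -/
def wd (g : Perm ι) : Lex (ι → ι) := toLex fun i => g i

theorem wd_inj {g h : Perm ι} (e : wd g = wd h) : g = h := by
  ext i
  exact congrFun (congrArg ofLex e) i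

theorem wd_lt {s : Finset ι} {σ ρ : Perm ι} (hσ : StrictAntiOn σ (s : Set ι)) (hρ : ρ ∈ supp s) (h1 : ρ ≠ 1) :
    wd (σ * ρ) < wd σ := by
  classical
  have hne : (Finset.univ.filter fun i => ρ i ≠ i).Nonempty := by
    by_contra hn
    rw [Finset.not_nonempty_iff_eq_empty, Finset.filter_eq_empty_iff] at hn
    apply h1
    ext i
    have := hn (Finset.mem_univ i)
    push Not at this
    exact this
  obtain ⟨i, hi, hmin⟩ := Finset.exists_min_image _ (fun i => i) hne
  have hi' : ρ i ≠ i := (Finset.mem_filter.1 hi).2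
  have hfix : ∀ j, j < i → ρ j = j := by
    intro j hj
    by_contra hn
    exact absurd (hmin j (Finset.mem_filter.2 ⟨Finset.mem_univ _, hn⟩)) (not_le.2 hj)
  have his : i ∈ s := by
    by_contra hn
    exact hi' (mem_supp.1 hρ i hn)
  have hlt : i < ρ i := by
    rcases lt_trichotomy (ρ i) i with h | h | h
    · exact absurd (ρ.injective (hfix _ h)) hi'
    · exact absurd h hi'
    · exact h
  refine ⟨i, fun j hj => ?_, ?_⟩
  · change σ (ρ j) = σ j
    rw [hfix j hj]
  · change σ (ρ i) < σ i
    exact hσ his (mem_of_supp hρ his) hlt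

/-- straightening -/
theorem straighten (a : ℕ) (σ : Perm ι) : ∃ c : Perm ι → ℤ, (∀ g, c g ≠ 0 → Good a g) ∧
    ∀ (M : Type) [AddCommGroup M] (F : Perm ι → M), AltRel a F → F σ = ∑ g, c g • F g := by
  classical
  have hwf : WellFounded fun g h : Perm ι => wd g < wd h := by
    have : IsTrans (Perm ι) (fun g h => wd g < wd h) := ⟨fun _ _ _ h1 h2 => lt_trans h1 h2⟩
    have : Std.Irrefl (fun g h : Perm ι => wd g < wd h) := ⟨fun _ h => lt_irrefl _ h⟩
    exact Finite.wellFounded_of_trans_of_irrefl _
  induction σ using hwf.induction with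
  | h σ ih =>
    by_cases hg : Good a σ
    · refine ⟨Pi.single σ 1, ?_, ?_⟩
      · intro g hgg
        by_cases h : g = σ
        · rw [h]; exact hg
        · exact absurd (Pi.single_eq_of_ne (M := fun _ => ℤ) h (1 : ℤ)) hgg
      · intro M _ F _
        rw [Finset.sum_eq_single σ]
        · rw [Pi.single_eq_same, one_smul]
        · intro g _ h
          rw [Pi.single_eq_of_ne h, zero_smul]
        · intro h
          exact absurd (Finset.mem_univ _) h
    · unfold Good at hg
      push Not at hg
      obtain ⟨s, hs, hanti⟩ := hg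
      have h1 : ∀ ρ : Perm ι, ∃ c : Perm ι → ℤ, (∀ g, c g ≠ 0 → Good a g) ∧
          (ρ ∈ supp s → ρ ≠ 1 → ∀ (M : Type) [AddCommGroup M] (F : Perm ι → M), AltRel a F → F (σ * ρ) = ∑ g, c g • F g) := by
        intro ρ
        by_cases hρ : ρ ∈ supp s ∧ ρ ≠ 1
        · obtain ⟨c, hc1, hc2⟩ := ih (σ * ρ) (wd_lt hanti hρ.1 hρ.2)
          exact ⟨c, hc1, fun _ _ => hc2⟩
        · exact ⟨0, fun g h => absurd rfl h, fun h2 h3 => absurd ⟨h2, h3⟩ hρ⟩
      choose c hc1 hc2 using h1
      refine ⟨fun g => -∑ ρ ∈ (supp s).erase 1, (sign ρ : ℤ) * c ρ g, ?_, ?_⟩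
      · intro g hgg
        have h2 : ∑ ρ ∈ (supp s).erase 1, (sign ρ : ℤ) * c ρ g ≠ 0 := fun h => hgg (by
          change -∑ ρ ∈ (supp s).erase 1, (sign ρ : ℤ) * c ρ g = 0
          rw [h, neg_zero])
        obtain ⟨ρ, _, h3⟩ := Finset.exists_ne_zero_of_sum_ne_zero h2
        exact hc1 ρ g (fun h => h3 (by rw [h, mul_zero]))
      · intro M _ F hF
        have h2 := hF σ s hs
        have h3 : (1 : Perm ι) ∈ supp s := mem_supp.2 fun i _ => rfl
        rw [← Finset.add_sum_erase _ _ h3, Perm.sign_one, mul_one, Units.val_one, one_smul] at h2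
        rw [eq_neg_of_add_eq_zero_left h2]
        have h4 : ∑ ρ ∈ (supp s).erase 1, (sign ρ : ℤ) • F (σ * ρ) =
            ∑ ρ ∈ (supp s).erase 1, (sign ρ : ℤ) • ∑ g, c ρ g • F g := by
          refine Finset.sum_congr rfl fun ρ hρ => ?_
          rw [hc2 ρ (Finset.mem_of_mem_erase hρ) (Finset.ne_of_mem_erase hρ) M F hF]
        rw [h4]
        simp only [neg_smul, Finset.sum_neg_distrib, Finset.smul_sum, Finset.sum_smul, mul_smul]
        rw [Finset.sum_comm]

/-- the colouring of a good permutation -/
theorem exists_col {a : ℕ} {g : Perm ι} (hg : Good a g) :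
    ∃ p : ι → ℕ, (∀ i, p i < a - 1) ∧ ∀ i j, i < j → p i = p j → g i < g j := by
  classical
  let T : ι → Finset (Finset ι) := fun i => Finset.univ.filter fun t => StrictAntiOn g (t : Set ι) ∧ i ∈ t ∧ ∀ j ∈ t, j ≤ i
  have hT : ∀ i, {i} ∈ T i := by
    intro i
    refine Finset.mem_filter.2 ⟨Finset.mem_univ _, ?_, Finset.mem_singleton_self i, ?_⟩
    · rw [Finset.coe_singleton]
      exact Set.strictAntiOn_singleton _
    · intro j hj
      exact (Finset.mem_singleton.1 hj).le
  let L : ι → ℕ := fun i => (T i).sup Finset.card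
  have hL1 : ∀ i, 1 ≤ L i := by
    intro i
    have h := Finset.le_sup (f := Finset.card) (hT i)
    rwa [Finset.card_singleton] at h
  have hL2 : ∀ i, ∃ t ∈ T i, t.card = L i := by
    intro i
    obtain ⟨t, ht, he⟩ := Finset.exists_mem_eq_sup (T i) ⟨_, hT i⟩ Finset.card
    exact ⟨t, ht, he.symm⟩
  have hL3 : ∀ i, L i < a := by
    intro i
    by_contra hn
    push Not at hn
    obtain ⟨t, ht, he⟩ := hL2 i
    rw [← he] at hn
    obtain ⟨s, hs, hsc⟩ := Finset.exists_subset_card_eq hn
    exact hg s hsc ((Finset.mem_filter.1 ht).2.1.mono (Finset.coe_subset.2 hs))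
  refine ⟨fun i => L i - 1, fun i => ?_, ?_⟩
  · have h1 := hL1 i
    have h3 := hL3 i
    change L i - 1 < a - 1
    omega
  · intro i j hij hp
    change L i - 1 = L j - 1 at hp
    have hp' : L i = L j := by
      have h1 := hL1 i
      have h2 := hL1 j
      omega
    by_contra hn
    have hlt : g j < g i := lt_of_le_of_ne (not_lt.1 hn) fun e => hij.ne (g.injective e).symm
    obtain ⟨t, ht, he⟩ := hL2 i
    obtain ⟨-, ht1, ht2, ht3⟩ := Finset.mem_filter.1 ht
    have hjt : j ∉ t := fun h => absurd (ht3 j h) (not_le.2 hij)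
    have h4 : insert j t ∈ T j := by
      refine Finset.mem_filter.2 ⟨Finset.mem_univ _, ?_, Finset.mem_insert_self _ _, ?_⟩
      · intro x hx y hy hxy
        rw [Finset.mem_coe, Finset.mem_insert] at hx hy
        rcases hx with rfl | hx
        · rcases hy with rfl | hy
          · exact absurd hxy (lt_irrefl _)
          · exact absurd (hxy.trans_le (ht3 y hy)) (not_lt.2 hij.le)
        · rcases hy with rfl | hy
          · refine hlt.trans_le ?_
            rcases eq_or_lt_of_le (ht3 x hx) with h | h
            · rw [h]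
            · exact (ht1 hx ht2 h).le
          · exact ht1 hx hy hxy
      · intro x hx
        rcases Finset.mem_insert.1 hx with rfl | hx
        · exact le_rfl
        · exact (ht3 x hx).trans hij.le
    have h5 := Finset.le_sup (f := Finset.card) h4
    rw [Finset.card_insert_of_notMem hjt, he] at h5
    change L i + 1 ≤ L j at h5
    omega

/-- the evaluation function of a good permutation -/
noncomputable def phi (g : Perm ι) (p : ι → ℕ) (σ : Perm ι) : ℤ := by
  classical
  exact if ∀ i, p (g.symm (σ i)) = p i then 1 else 0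

theorem phi_self (g : Perm ι) (p : ι → ℕ) : phi g p g = 1 := by
  classical
  unfold phi
  rw [if_pos]
  intro i
  rw [Equiv.symm_apply_apply]

theorem phi_le {g : Perm ι} {p : ι → ℕ} (hp : ∀ i j, i < j → p i = p j → g i < g j) {σ : Perm ι} (h : phi g p σ ≠ 0) :
    wd g ≤ wd σ := by
  classical
  have hc : ∀ i, p (g.symm (σ i)) = p i := by
    by_contra hn
    apply h
    unfold phi
    rw [if_neg hn]
  by_cases he : g = σ
  · rw [he]
  · have hne : (Finset.univ.filter fun i => g i ≠ σ i).Nonempty := by
      by_contra hn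
      rw [Finset.not_nonempty_iff_eq_empty, Finset.filter_eq_empty_iff] at hn
      apply he
      ext i
      have := hn (Finset.mem_univ i)
      push Not at this
      exact this
    obtain ⟨i, hi, hmin⟩ := Finset.exists_min_image _ (fun i => i) hne
    have hi' : g i ≠ σ i := (Finset.mem_filter.1 hi).2
    have hfix : ∀ j, j < i → g j = σ j := by
      intro j hj
      by_contra hn
      exact absurd (hmin j (Finset.mem_filter.2 ⟨Finset.mem_univ _, hn⟩)) (not_le.2 hj)
    refine le_of_lt ⟨i, hfix, ?_⟩
    change g i < σ i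
    set j := g.symm (σ i) with hj
    have hgj : g j = σ i := by rw [hj, Equiv.apply_symm_apply]
    rcases lt_trichotomy j i with h1 | h1 | h1
    · have h2 := hfix j h1
      rw [hgj] at h2
      exact absurd (σ.injective h2).symm h1.ne
    · rw [h1] at hgj
      exact absurd hgj hi'
    · have h2 := hp i j h1 (hc i).symm
      rwa [hgj] at h2

theorem phi_swap (g : Perm ι) (p : ι → ℕ) (σ : Perm ι) {i j : ι} (h : p (g.symm (σ i)) = p (g.symm (σ j))) (ρ : Perm ι) :
    phi g p (σ * (swap i j * ρ)) = phi g p (σ * ρ) := by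
  classical
  have h1 : ∀ l, p (g.symm (σ (swap i j l))) = p (g.symm (σ l)) := by
    intro l
    by_cases hi : l = i
    · rw [hi, swap_apply_left]; exact h.symm
    · by_cases hj : l = j
      · rw [hj, swap_apply_right]; exact h
      · rw [swap_apply_of_ne_of_ne hi hj]
  unfold phi
  have h2 : ∀ l, p (g.symm ((σ * (swap i j * ρ)) l)) = p (g.symm ((σ * ρ) l)) := fun l => h1 (ρ l)
  simp only [h2]

theorem phi_swap' (g : Perm ι) (p : ι → ℕ) (σ : Perm ι) {i j : ι} (h : p i = p j) :
    phi g p (σ * swap i j) = phi g p σ := by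
  classical
  have h1 : ∀ l, p (swap i j l) = p l := by
    intro l
    by_cases hi : l = i
    · rw [hi, swap_apply_left]; exact h.symm
    · by_cases hj : l = j
      · rw [hj, swap_apply_right]; exact h
      · rw [swap_apply_of_ne_of_ne hi hj]
  have h2 : (∀ l, p (g.symm ((σ * swap i j) l)) = p l) ↔ ∀ l, p (g.symm (σ l)) = p l := by
    constructor
    · intro h3 l
      have h4 := h3 (swap i j l)
      rw [h1] at h4
      rw [← h4, Perm.mul_apply, swap_apply_self]
    · intro h3 l
      rw [Perm.mul_apply, h3, h1]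
  unfold phi
  simp only [h2]

theorem phi_alt {a : ℕ} (ha : 0 < a) {g : Perm ι} {p : ι → ℕ} (hp : ∀ i, p i < a - 1) : AltRel a (phi g p) := by
  classical
  intro σ s hs
  obtain ⟨i, hi, j, hj, hij, he⟩ : ∃ i ∈ s, ∃ j ∈ s, i ≠ j ∧ p (g.symm (σ i)) = p (g.symm (σ j)) := by
    refine Finset.exists_ne_map_eq_of_card_lt_of_maps_to (t := Finset.range (a - 1)) ?_ ?_
    · rw [Finset.card_range, hs]
      omega
    · intro x _
      exact Finset.mem_coe.2 (Finset.mem_range.2 (hp _))
  refine Finset.sum_involution (fun ρ _ => swap i j * ρ) ?_ ?_ ?_ ?_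
  · intro ρ _
    rw [phi_swap g p σ he, Perm.sign_mul, sign_swap hij]
    simp
  · intro ρ _ _ h
    have h2 : swap i j = 1 := by
      have := congrArg (fun x => x * ρ⁻¹) h
      simpa using this
    exact hij (Equiv.swap_eq_one_iff.1 h2)
  · intro ρ hρ
    refine mem_supp.2 fun l hl => ?_
    rw [Perm.mul_apply, mem_supp.1 hρ l hl, swap_apply_of_ne_of_ne]
    · rintro rfl; exact hl hi
    · rintro rfl; exact hl hj
  · intro ρ _
    rw [← mul_assoc, swap_mul_self, one_mul]

theorem good_pos {a : ℕ} {g : Perm ι} (hg : Good a g) : 0 < a := by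
  rcases Nat.eq_zero_or_pos a with h | h
  · exfalso
    refine hg ∅ (by rw [h, Finset.card_empty]) ?_
    rw [Finset.coe_empty]
    intro x hx
    exact absurd hx (Set.notMem_empty x)
  · exact h

/-- the alternating sum over all permutations of two evaluation functions -/
theorem sum_phi {a b : ℕ} (h : (a - 1) * (b - 1) < Fintype.card ι) {g h' : Perm ι} {p q : ι → ℕ} (hp : ∀ i, p i < a - 1)
    (hq : ∀ i, q i < b - 1) : ∑ σ : Perm ι, (sign σ : ℤ) * (phi g p σ * phi h' q σ) = 0 := by
  classical
  obtain ⟨i, -, j, -, hij, he⟩ : ∃ i ∈ (Finset.univ : Finset ι), ∃ j ∈ (Finset.univ : Finset ι), i ≠ j ∧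
      (p i, q i) = (p j, q j) := by
    refine Finset.exists_ne_map_eq_of_card_lt_of_maps_to (f := fun x => (p x, q x))
      (t := Finset.range (a - 1) ×ˢ Finset.range (b - 1)) ?_ ?_
    · rw [Finset.card_product, Finset.card_range, Finset.card_range, Finset.card_univ]
      exact h
    · intro x _
      exact Finset.mem_coe.2 (Finset.mem_product.2 ⟨Finset.mem_range.2 (hp _), Finset.mem_range.2 (hq _)⟩)
  rw [Prod.mk.injEq] at he
  refine Finset.sum_involution (fun σ _ => σ * swap i j) ?_ ?_ ?_ ?_
  · intro σ _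
    rw [phi_swap' g p σ he.1, phi_swap' h' q σ he.2, Perm.sign_mul, sign_swap hij]
    simp
  · intro σ _ _ h
    have h2 : swap i j = 1 := by
      have := congrArg (fun x => σ⁻¹ * x) h
      simpa using this
    exact hij (Equiv.swap_eq_one_iff.1 h2)
  · intro σ _
    exact Finset.mem_univ _
  · intro σ _
    rw [mul_assoc, swap_mul_self, mul_one]

/-- the diagonal: the alternating sum of `f (σ, σ)` vanishes -/
theorem diag_alt {M : Type} [AddCommGroup M] {a b : ℕ} (h : (a - 1) * (b - 1) < Fintype.card ι) (f : Perm ι → Perm ι → M)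
    (h1 : ∀ τ, AltRel a fun σ => f σ τ) (h2 : ∀ σ, AltRel b fun τ => f σ τ) : ∑ σ : Perm ι, (sign σ : ℤ) • f σ σ = 0 := by
  classical
  have h3 := fun σ : Perm ι => straighten a σ
  have h4 := fun σ : Perm ι => straighten b σ
  choose c hc1 hc2 using h3
  choose d hd1 hd2 using h4
  let E : Perm ι → Perm ι → ℤ := fun g h' => ∑ σ : Perm ι, (sign σ : ℤ) * (c σ g * d σ h')
  have key : ∀ (M : Type) [AddCommGroup M] (f : Perm ι → Perm ι → M), (∀ τ, AltRel a fun σ => f σ τ) →
      (∀ σ, AltRel b fun τ => f σ τ) → ∑ σ : Perm ι, (sign σ : ℤ) • f σ σ = ∑ g, ∑ h', E g h' • f g h' := by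
    intro M _ f h1 h2
    have h5 : ∀ σ, f σ σ = ∑ g, ∑ h', (c σ g * d σ h') • f g h' := by
      intro σ
      rw [hc2 σ M (fun σ' => f σ' σ) (h1 σ)]
      refine Finset.sum_congr rfl fun g _ => ?_
      rw [hd2 σ M (fun τ => f g τ) (h2 g), Finset.smul_sum]
      refine Finset.sum_congr rfl fun h' _ => ?_
      rw [mul_smul]
    have h6 : ∀ σ, (sign σ : ℤ) • f σ σ = ∑ g, ∑ h', ((sign σ : ℤ) * (c σ g * d σ h')) • f g h' := by
      intro σ
      rw [h5 σ, Finset.smul_sum]
      refine Finset.sum_congr rfl fun g _ => ?_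
      rw [Finset.smul_sum]
      refine Finset.sum_congr rfl fun h' _ => ?_
      rw [smul_smul]
    rw [Finset.sum_congr rfl fun σ _ => h6 σ, Finset.sum_comm]
    refine Finset.sum_congr rfl fun g _ => ?_
    rw [Finset.sum_comm]
    refine Finset.sum_congr rfl fun h' _ => ?_
    rw [← Finset.sum_smul]
  have hE : ∀ g h', E g h' = 0 := by
    by_contra hn
    push Not at hn
    have hne : (Finset.univ.filter fun g => ∃ h', E g h' ≠ 0).Nonempty := by
      obtain ⟨g, h', hgh⟩ := hn
      exact ⟨g, Finset.mem_filter.2 ⟨Finset.mem_univ _, h', hgh⟩⟩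
    obtain ⟨g, hg, hgmax⟩ := Finset.exists_max_image _ wd hne
    obtain ⟨-, h0, hgh0⟩ := Finset.mem_filter.1 hg
    have hne' : (Finset.univ.filter fun h' => E g h' ≠ 0).Nonempty := ⟨h0, Finset.mem_filter.2 ⟨Finset.mem_univ _, hgh0⟩⟩
    obtain ⟨k, hk, hkmax⟩ := Finset.exists_max_image _ wd hne'
    have hgk : E g k ≠ 0 := (Finset.mem_filter.1 hk).2
    obtain ⟨σ, -, hσ⟩ := Finset.exists_ne_zero_of_sum_ne_zero hgk
    have hGg : Good a g := hc1 σ g fun h => hσ (by rw [h, zero_mul, mul_zero])
    have hGk : Good b k := hd1 σ k fun h => hσ (by rw [h, mul_zero, mul_zero])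
    obtain ⟨p, hp1, hp2⟩ := exists_col hGg
    obtain ⟨q, hq1, hq2⟩ := exists_col hGk
    have h7 := key ℤ (fun σ τ => phi g p σ * phi k q τ) (fun τ => by
        intro σ s hs
        have h8 := phi_alt (good_pos hGg) hp1 (g := g) σ s hs
        simp only [smul_eq_mul] at h8 ⊢
        simp only [← mul_assoc]
        rw [← Finset.sum_mul, h8, zero_mul]) (fun σ => by
        intro τ s hs
        have h8 := phi_alt (good_pos hGk) hq1 (g := k) τ s hs
        simp only [smul_eq_mul] at h8 ⊢
        simp only [mul_left_comm _ (phi g p σ)]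
        rw [← Finset.mul_sum, h8, mul_zero])
    simp only [smul_eq_mul] at h7
    rw [sum_phi h hp1 hq1] at h7
    have h9 : ∑ g', ∑ h', E g' h' * (phi g p g' * phi k q h') = E g k := by
      rw [Finset.sum_eq_single g]
      · rw [Finset.sum_eq_single k]
        · rw [phi_self, phi_self, mul_one, mul_one]
        · intro h' _ hh
          by_cases e1 : E g h' = 0
          · rw [e1, zero_mul]
          · by_cases e2 : phi k q h' = 0
            · rw [e2, mul_zero, mul_zero]
            · exfalso
              have h10 := hkmax h' (Finset.mem_filter.2 ⟨Finset.mem_univ _, e1⟩)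
              exact hh (wd_inj (le_antisymm h10 (phi_le hq2 e2)))
        · intro hh
          exact absurd (Finset.mem_univ _) hh
      · intro g' _ hh
        refine Finset.sum_eq_zero fun h' _ => ?_
        by_cases e1 : E g' h' = 0
        · rw [e1, zero_mul]
        · by_cases e2 : phi g p g' = 0
          · rw [e2, zero_mul, mul_zero]
          · exfalso
            have h10 := hgmax g' (Finset.mem_filter.2 ⟨Finset.mem_univ _, h', e1⟩)
            exact hh (wd_inj (le_antisymm h10 (phi_le hp2 e2)))
      · intro hh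
        exact absurd (Finset.mem_univ _) hh
    rw [h9] at h7
    exact hgk h7.symm
  rw [key M f h1 h2]
  refine Finset.sum_eq_zero fun g _ => Finset.sum_eq_zero fun h' _ => ?_
  rw [hE, zero_smul]

end H77.GP
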