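import Pool.Agent.H79.GM.Def

/-! # GP.Def : varieties with a correspondence from a product of elliptic surfaces (definitions only)

`W i : y^2 = x^3 - 3 a_i x - 2 b_i`, `i < r`, Weierstrass models in `ℙ(v_i, 2n_i, 3n_i)` over base curves over `K0` (`ES.Wm`, `H77.PB.Curve`); the points with `β = 0` are one point: the zero section is contracted.  All bases have `s`
homogeneous coordinates, which can be arranged by adding coordinates which are zero.  `X` is a closed subset of a weighted projective space over `K0` (`H79.GM.Var`), `Γ ⊂ W_1 × ... × W_r × X` a closed subset. -/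

namespace H77.GP

open H68.BB H79.GM

variable {K0 : Type} [Field K0] {r s m : ℕ}

/-- the coordinates on `W_1 × ... × W_r × X` -/
abbrev Ix (r s m : ℕ) : Type := (Fin r × (Fin s ⊕ Fin 2)) ⊕ Fin m

/-- the coordinates of a point of `W_1 × ... × W_r × X` -/
def crd {F : Type} (P : Fin r → ES.Pt s F) (u : Fin m → F) : Ix r s m → F :=
  Sum.elim (fun p => Sum.elim (P p.1).β ![(P p.1).x, (P p.1).y] p.2) u

/-- the weights of the coordinates of `W_i`, the other coordinates have weight zero -/
def wtI (W : Fin r → ES.Wm K0 s) (m : ℕ) (i : Fin r) : Ix r s m → ℕ :=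
  Sum.elim (fun p => if p.1 = i then H77.PB.wtG (W i) p.2 else 0) fun _ => 0

/-- the weights of the coordinates of `X`, the other coordinates have weight zero -/
def wtX (r s : ℕ) (X : Var K0 m) : Ix r s m → ℕ := Sum.elim (fun _ => 0) X.w

/-- equations of a closed subset `Γ` of `W_1 × ... × W_r × X`: polynomials which are weighted homogeneous in each of the `r + 1` groups of coordinates -/
def MHom (W : Fin r → ES.Wm K0 s) (X : Var K0 m) (G : Set (MvPolynomial (Ix r s m) K0)) : Prop :=
  ∀ f ∈ G, (∀ i, ∃ e, MvPolynomial.IsWeightedHomogeneous (wtI W m i) f e) ∧ ∃ e, MvPolynomial.IsWeightedHomogeneous (wtX r s X) f e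

/-- the point `(P_1, ..., P_r, u)` lies on `Γ` -/
def InM {F : Type} [Field F] [Algebra K0 F] (G : Set (MvPolynomial (Ix r s m) K0)) (P : Fin r → ES.Pt s F) (u : Fin m → F) : Prop :=
  ∀ f ∈ G, MvPolynomial.aeval (crd P u) f = 0

/-- the closed subset `Γ ⊂ W_1 × ... × W_r × X` is a correspondence from `W_1 × ... × W_r` to `X`: over every algebraically closed field containing `K0` it maps onto `W_1 × ... × W_r`, and any two points of `X` over the same point of
`W_1 × ... × W_r` are rationally equivalent up to torsion -/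
structure Cor (W : Fin r → ES.Wm K0 s) (X : Var K0 m) (G : Set (MvPolynomial (Ix r s m) K0)) : Prop where
  hom : MHom W X G
  tot : ∀ (K : Type) [Field K] [IsAlgClosed K] [Algebra K0 K] (P : Fin r → ES.Pt s K), (∀ i, ES.OnW (W i) (P i)) →
    ∃ u : Fin m → K, OnV X u ∧ InM G P u
  uniq : ∀ (K : Type) [Field K] [IsAlgClosed K] [Algebra K0 K] (P : Fin r → ES.Pt s K) (u u' : Fin m → K), (∀ i, ES.OnW (W i) (P i)) →
    OnV X u → OnV X u' → InM G P u → InM G P u' → ∃ N : ℕ, 0 < N ∧
      N • (Finsupp.single (fun _ => u) 1 - Finsupp.single (fun _ => u') 1 : (Fin 1 → Fin m → K) →₀ ℤ) ∈ RatV X K 1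

/-- the closed subset `Γ` of `W_1 × ... × W_r × X` maps onto `X` over every algebraically closed field containing `K0` -/
def OntoX (W : Fin r → ES.Wm K0 s) (X : Var K0 m) (G : Set (MvPolynomial (Ix r s m) K0)) : Prop :=
  ∀ (K : Type) [Field K] [IsAlgClosed K] [Algebra K0 K] (u : Fin m → K), OnV X u →
    ∃ P : Fin r → ES.Pt s K, (∀ i, ES.OnW (W i) (P i)) ∧ InM G P u

end H77.GP
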